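import Pool.Agent.Q269.GR.Def

/-!
# Project GR: lemma jobs, equidistribution of the symbols (part 1)

`sg : F2 → ℝ`, `sg 0 = 1`, `sg 1 = -1` (`Pool.Agent.Y164.PS.Sym`).
-/

set_option autoImplicit false
set_option linter.all false

open scoped Classical
open Finset Polynomial

namespace Pool.Agent.Q269.GR

open Pool.Agent.Y164.PS (L sg)

/-- **JOB GR-DUA.** Duality for bilinear forms.
Proof. `S_b = ∑_a A a b h a`. `∑_b S_b² = ∑_a h a (∑_b A a b S_b) ≤ (∑ h²)^(1/2) (∑_a (∑_b A a b S_b)²)^(1/2) ≤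
(∑ h²)^(1/2) (C ∑_b S_b²)^(1/2)`; divide (if `∑ S_b² = 0` it is clear). -/
def S_DUA : Prop := ∀ (α β : Type) [Fintype α] [Fintype β] (A : α → β → ℝ) (C : ℝ), 0 ≤ C →
  (∀ g : β → ℝ, ∑ a, (∑ b, A a b * g b) ^ 2 ≤ C * ∑ b, g b ^ 2) →
  ∀ h : α → ℝ, ∑ b, (∑ a, A a b * h a) ^ 2 ≤ C * ∑ a, h a ^ 2

/-- **JOB GR-CH1.** Replacing one random vector of bits by a uniform one.
Proof. `N = |B|`. For fixed `p`, `v` expand `b ↦ Φ p v b` in the characters `sg (c b)`, `c : B →ₗ[F2] F2` (there are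
`N` of them, they are orthonormal for the mean over `B`): `Φ p v b = ∑_c a_c(p, v) sg (c b)`, `a_c = N⁻¹ ∑_b Φ p v b
sg (c b)`, `∑_c a_c² = N⁻¹ ∑_b Φ² ≤ 1` (Parseval), `a_0 = N⁻¹ ∑_b Φ p v b`. So the left side is
`|∑_v ∑_p ∑_(c≠0) a_c(p, v) S_c(p, v)|`, `S_c(p, v) = ∑_(p' : v p' = v) sg (c (x p p'))`. By Cauchy-Schwarz
over `c`: `≤ ∑_v ∑_p (∑_(c≠0) S_c(p, v)²)^(1/2) ≤ ∑_v (|Θ₁| ∑_(c≠0) ∑_p S_c(p, v)²)^(1/2)`. By the hypothesis with
`g = 1_(v p' = v)`: `∑_p S_c² ≤ C n_v`, `n_v = #{p' : v p' = v}`. So it is `≤ ∑_v (|Θ₁| N C n_v)^(1/2) ≤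
(|Θ₁| N C)^(1/2) (|W| ∑_v n_v)^(1/2) = (|Θ₁| N C |W| |Θ₂|)^(1/2)`. -/
def S_CH1 : Prop := ∀ (Θ₁ Θ₂ W B : Type) [Fintype Θ₁] [Fintype Θ₂] [Fintype W] [Fintype B]
  [AddCommGroup B] [Module F2 B] (x : Θ₁ → Θ₂ → B) (v : Θ₂ → W) (Φ : Θ₁ → W → B → ℝ),
  (∀ p w b, 0 ≤ Φ p w b ∧ Φ p w b ≤ 1) → ∀ C : ℝ, 0 ≤ C →
  (∀ c : B →ₗ[F2] F2, c ≠ 0 → ∀ g : Θ₂ → ℝ,
    ∑ p, (∑ p', g p' * sg (c (x p p'))) ^ 2 ≤ C * ∑ p', g p' ^ 2) →
  |∑ p, ∑ p', (Φ p (v p') (x p p') - (∑ b, Φ p (v p') b) / Fintype.card B)| ≤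
    Real.sqrt (Fintype.card Θ₁ * Fintype.card Θ₂ * Fintype.card W * Fintype.card B * C)

/-- **JOB GR-CHN.** Replacing all the vectors of bits by independent uniform ones, for a family of
random elements `T i ∈ Θ i`, `i : Fin m`, with types `t i (T i)` and bits `x i j (T i) (T j)`, `i < j`. (Prove
`t_CHN (h : S_CH1) : S_CHN`.)
Proof. Only the pairs `i < j` matter. Replace the pairs one after the other, in this order: `j = m-1, m-2, …`, and
for every `j`: `i = j-1, j-2, …, 0`. At the step `(i, j)` the function `Φ` has already been averaged over the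
coordinates `(i', j')` with `j' > j` or `j' = j`, `i' > i` (call the result `Φ'`, again with values in `[0, 1]`;
it is independent of these coordinates), and we compare `∑_T Φ'(t(T), x(T))` with the sum after averaging over the
coordinate `(i, j)`. Fix all `T l`, `l ≠ i, j`. As a function of `T j = p'` the summand depends only on
`v(p') = (t j p', (x l j (T l) p')_(l<i))` and on the bits `x i j (T i) p'`: the coordinates `(l, j)` with
`i < l < j` and `(j, l)` with `l > j` have been averaged. So CH1 applies with `Θ₁ = Θ i`, `Θ₂ = Θ j`,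
`W = 𝒯 j × ∏_(l<i) B l j`, `B = B i j`, `C = η i j |Θ i| |Θ j|`: the error is at most
`|Θ i| |Θ j| (|𝒯 j| ∏_(l<i) |B l j| |B i j| η i j)^(1/2)`. Sum over the other coordinates: `∏ |Θ|` in place of
`|Θ i| |Θ j|`. (Technically: average over `T` by averaging over the two coordinates `i`, `j` with
`Function.update`, or induct over a list of the pairs; the average over the whole type `∀ i j, B i j` is the same as the
average over the coordinates `i < j`, as `Φ` does not depend on the others.) -/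
def S_CHN : Prop := ∀ (m : ℕ) (Θ : Fin m → Type) [∀ i, Fintype (Θ i)] (B : Fin m → Fin m → Type)
  [∀ i j, Fintype (B i j)] [∀ i j, AddCommGroup (B i j)] [∀ i j, Module F2 (B i j)]
  (𝒯 : Fin m → Type) [∀ i, Fintype (𝒯 i)] (t : ∀ i, Θ i → 𝒯 i) (x : ∀ i j, Θ i → Θ j → B i j)
  (η : Fin m → Fin m → ℝ), (∀ i j, 0 ≤ η i j) →
  (∀ i j, i < j → ∀ c : B i j →ₗ[F2] F2, c ≠ 0 → ∀ g : Θ j → ℝ,
    ∑ p, (∑ p', g p' * sg (c (x i j p p'))) ^ 2 ≤
      η i j * Fintype.card (Θ i) * Fintype.card (Θ j) * ∑ p', g p' ^ 2) →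
  ∀ Φ : (∀ i, 𝒯 i) → (∀ i j, B i j) → ℝ, (∀ τ s, 0 ≤ Φ τ s ∧ Φ τ s ≤ 1) →
  (∀ τ s s', (∀ i j, i < j → s i j = s' i j) → Φ τ s = Φ τ s') →
  |∑ T : (∀ i, Θ i), (Φ (fun i => t i (T i)) (fun i j => x i j (T i) (T j)) -
      (∑ s : (∀ i j, B i j), Φ (fun i => t i (T i)) s) / Fintype.card (∀ i j, B i j))| ≤
    (∏ i, (Fintype.card (Θ i) : ℝ)) * ∑ i, ∑ j, if i < j then
      Real.sqrt (Fintype.card (𝒯 j) * (∏ l, if l ≤ i then (Fintype.card (B l j) : ℝ) else 1) * η i j)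
      else 0

/-! ### the symbols -/

/-- **JOB GR-FLD.** The fields `K_d` as types.
Proof. `E` = the subfield `{x : Om k | x ^ (q ^ d) = x}` (closed under addition since `q ^ d` is a power of the
characteristic; it contains `k`), which has `q ^ d` elements: `X ^ (q^d) - X` splits in `Om k` and is separable.
(Or take a `GaloisField`-like extension of degree `d` and embed it in `Om k`.) -/
def S_FLD : Prop := ∀ (k : Type) [Field k] [Fintype k] (d : ℕ), 0 < d →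
  ∃ (E : Type) (_ : Field E) (_ : Fintype E) (_ : Algebra k E) (j : E →ₐ[k] Om k),
    Fintype.card E = Fintype.card k ^ d ∧ Module.finrank k E = d ∧ ∀ x : Om k, inK k d x ↔ x ∈ Set.range j

/-- **JOB GR-SGD.** Properties of the symbol. (`t_SGD (h : S_FLD) : S_SGD`.)
Proof. With FLD translate to the finite field `E` with `q^d` elements, `char ≠ 2`: an element `x ≠ 0` is a square
iff `x^((q^d-1)/2) = 1` (otherwise it is `-1`). (1) is clear. (2) `x^(q^i)`, `q` odd. (3) `(q^D-1)/2 =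
(q^d-1)/2 · (1 + q^d + … )` with `D/d` terms, an odd number, so `x^((q^D-1)/2) = (x^((q^d-1)/2))^(odd number)`
(all the terms are odd). (4) `-1` is a square in `k`. (5) `∏_(i<d/r) x^(q^(ri)) = x^((q^d-1)/(q^r-1)) = N`, which is in
`K_r`, and `N^((q^r-1)/2) = x^((q^d-1)/2)`. (6) `0 = 0²`. -/
def S_SGD : Prop := ∀ (k : Type) [Field k] [Fintype k], ringChar k ≠ 2 → ∀ (d : ℕ), 0 < d →
  (∀ x y : Om k, inK k d x → inK k d y → x ≠ 0 → y ≠ 0 → sgd k d (x * y) = sgd k d x + sgd k d y) ∧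
  (∀ (x : Om k) (i : ℕ), inK k d x → sgd k d (x ^ (Fintype.card k ^ i)) = sgd k d x) ∧
  (∀ (x : Om k) (D : ℕ), inK k d x → d ∣ D → Odd (D / d) → inK k D x ∧ sgd k D x = sgd k d x) ∧
  (IsSquare (-1 : k) → ∀ x : Om k, inK k d x → sgd k d (-x) = sgd k d x) ∧
  (∀ (x : Om k) (r : ℕ), inK k d x → x ≠ 0 → 0 < r → r ∣ d →
    inK k r (∏ i ∈ range (d / r), x ^ (Fintype.card k ^ (r * i))) ∧
    sgd k r (∏ i ∈ range (d / r), x ^ (Fintype.card k ^ (r * i))) = sgd k d x) ∧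
  sgd k d (0 : Om k) = 0

/-- **JOB GR-RTP.** The roots of irreducible polynomials.
Proof. `rt P` is a root (`Om k` is algebraically closed, `P` is not constant). `k(θ)` has `q^d` elements. The
elements `θ^(q^l)`, `l < d`, are roots of `P` and different (see `Pool.Agent.Q269.GT` `S_SPL`, proved in
`Pool/Agent/Q269/GT`, or the docstring there: `θ^(q^i) = θ` implies `d ∣ i`). Two different monic irreducible
polynomials have no common root. -/
def S_RTP : Prop := ∀ (k : Type) [Field k] [Fintype k] (P : k[X]), P.Monic → Irreducible P →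
  aeval (rt P) P = 0 ∧ inK k P.natDegree (rt P) ∧
  P.map (algebraMap k (Om k)) = ∏ l ∈ range P.natDegree, (X - C (rt P ^ (Fintype.card k ^ l))) ∧
  (∀ i j : ℕ, rt P ^ (Fintype.card k ^ i) = rt P ^ (Fintype.card k ^ j) ↔ i ≡ j [MOD P.natDegree]) ∧
  (∀ P' : k[X], P'.Monic → Irreducible P' → P' ≠ P → ∀ i j : ℕ,
    rt P ^ (Fintype.card k ^ i) ≠ rt P' ^ (Fintype.card k ^ j))

/-- **JOB GR-SYP.** Properties of the symbols `sy`. (`t_SYP (h1 : S_SGD) (h2 : S_RTP) : S_SYP`.)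
Proof. `θ = rt P`, `θ' = rt P'`, `d`, `d'` the degrees, `q` the cardinality. Let
`y_c = ∏_(l<d, l%g=c) (θ' - θ^(q^l))`. It lies in `K_(d')`: `y_c^(q^(d')) = ∏ (θ' - θ^(q^(l+d')))` and
`l ↦ l + d'` modulo `d` permutes the residues `≡ c` modulo `g` (`g ∣ d`, `g ∣ d'`). For `P ≠ P'` it is not `0`.
(1) `∑_c sy g P P' c = sgd (∏_c y_c) = sgd_(d') (P(θ'))`, and this is `L P P'`: `L P P' = 0` iff `P` is a square
modulo `P'` (`Pool.Agent.Y164.PS.Sym`, `L_eq_zero_iff` or `lam_irr`), iff `P(θ')` is a square in `k(θ') = K_(d')`.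
(2) group the `l` by the residue modulo `g`. (3) `g > 0`: by (5) of SGD with `r = g`: `sy g P P' c = sgd_g (N)`,
`N = ∏_(i<d'/g) ∏_(l≡c) (θ'^(q^(gi)) - θ^(q^(l+gi)))`, `= ∏_(m<d', m≡0) ∏_(l<d, l≡c) (θ'^(q^m) - θ^(q^l))`
(as `l + gi ≡ c` runs through the residues again); in the same way `sy g P' P ((g - c) % g) =
sgd_g ∏_(l<d, l≡0) ∏_(m<d', m≡-c) (θ^(q^l) - θ'^(q^m))`; raise the latter to the power `q^c`:
`∏_(l≡c) ∏_(m≡0) (θ^(q^l) - θ'^(q^m))`, which is `±N`. (2), (4) of SGD (`-1` is a square in `k ⊆ K_g`).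
(4) The same for `P' = P`, `0 < c < g` (all the factors are nonzero). (5) By (2), with `0 < r`, `r ∣ g`, `ξ^r = 1`.
(6) By (3): `∑_c sy g P' P c ξ^c = ∑_c sy g P P' ((g-c)%g) ξ^c = ∑_c sy g P P' c (ξ⁻¹)^c`. -/
def S_SYP : Prop := ∀ (k : Type) [Field k] [Fintype k], ringChar k ≠ 2 → IsSquare (-1 : k) →
  ∀ (P P' : k[X]) (g : ℕ), P.Monic → Irreducible P → P'.Monic → Irreducible P' → 0 < g →
  g ∣ P.natDegree → g ∣ P'.natDegree →
  (P ≠ P' → ∑ c ∈ range g, sy g P P' c = L P P') ∧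
  (P ≠ P' → ∀ r : ℕ, 0 < r → r ∣ g → ∀ c < r,
    sy r P P' c = ∑ c' ∈ (range g).filter (fun c' => c' % r = c), sy g P P' c') ∧
  (P ≠ P' → ∀ c < g, sy g P P' c = sy g P' P ((g - c) % g)) ∧
  (∀ c < g, 0 < c → sy g P P c = sy g P P (g - c)) ∧
  (P ≠ P' → ∀ (F : Type) [Field F] [Algebra F2 F] (ξ : F) (r : ℕ), 0 < r → r ∣ g → ξ ^ r = 1 →
    hv r ξ P P' = ev ξ (fun c : Fin g => sy g P P' c)) ∧
  (P ≠ P' → ∀ (F : Type) [Field F] [Algebra F2 F] (ξ : F), ξ ^ g = 1 →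
    hv g ξ P' P = hv g ξ⁻¹ P P')

/-- **JOB GR-IRC.** The number of irreducible polynomials.
Proof. `∑_(d'∣d) d' #Irn d' = q^d` (see `Pool/Agent/H341R2` or other libraries: search `card_irr`), so
`d #Irn d ≤ q^d` and `q^d - d #Irn d = ∑_(d'∣d, d'<d) d' #Irn d' ≤ ∑_(d' ≤ d/2) q^(d') ≤ 2 q^(d/2)` (`q ≥ 2`). Second
statement: for `q ≥ 2`, `d ≥ 1` (small cases by hand; `q ≥ 5` may be assumed). -/
def S_IRC : Prop := ∀ (k : Type) [Field k] [Fintype k], 5 ≤ Fintype.card k → ∀ d : ℕ, 0 < d →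
  ((d : ℝ) * (Irn k d).card ≤ (Fintype.card k : ℝ) ^ d) ∧
  ((Fintype.card k : ℝ) ^ d ≤ 2 * d * (Irn k d).card) ∧
  ((Fintype.card k : ℝ) ^ d - 2 * Real.sqrt ((Fintype.card k : ℝ) ^ d) ≤ d * (Irn k d).card)

/-- **JOB GR-OPB.** The large sieve inequality for the symbols. (`t_OPB (h1 : S_FLD) (h2 : S_SGD) (h3 : S_RTP) :
S_OPB`.)
Proof. `E` = the field `K_(d')` (FLD), `χ` its quadratic character. For `P ∈ Irn k d` let
`G_P = ∏_(l<d, u(l%g)=1) (X - θ_P^(q^l))`, `θ_P = rt P`; its set of roots is stable under `x ↦ x^(q^g)` (`g ∣ d`), so it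
has coefficients in `K_g ⊆ K_(d')` and we consider it as a polynomial over `E`. For `θ' = rt P'`, `P' ∈ Irn k d'`
(`≠ P` as `d ≠ d'`): `sg (∑_(c<g) u c * sy g P P' c) = χ (G_P(θ'))`. Put `S(x) = ∑_(P ∈ Irn k d) w P χ (G_P(x))` for
`x ∈ E`. `S(x^(q^g)) = S(x)` since `G_P(x^(q^g)) = G_P(x)^(q^g)`. For each `P'` the elements `θ'^(q^(gi))`, `i < d'/g`,
are different elements of `E`, and different `P'` give different elements. So
`(d'/g) ∑_(P') S(θ')² ≤ ∑_(x ∈ E) S(x)² = ∑_(P₁,P₂) w P₁ w P₂ ∑_x χ ((G_(P₁) G_(P₂))(x))`. For `P₁ = P₂` the inner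
sum is at most `q^(d')`. For `P₁ ≠ P₂` the polynomial `G_(P₁) G_(P₂)` is squarefree of degree between `1` (as `u c ≠ 0`
for some `c < g`) and `2d`, so it is not of the form `C c * h^2`, and by `weil_sharp` the sum is at most
`2d (q^(d'))^(1/2)` in absolute value; `∑_(P₁,P₂) |w P₁ w P₂| ≤ #Irn ∑ w²`. -/
def S_OPB : Prop := ∀ (k : Type) [Field k] [Fintype k], ringChar k ≠ 2 → ∀ (g d d' : ℕ), 0 < g → 0 < d →
  0 < d' → g ∣ d → g ∣ d' → d ≠ d' → ∀ u : ℕ → F2, (∃ c < g, u c ≠ 0) → ∀ w : k[X] → ℝ,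
  ∑ P' ∈ Irn k d', (∑ P ∈ Irn k d, w P * sg (∑ c ∈ range g, u c * sy g P P' c)) ^ 2 ≤
    (g / d') * ((Fintype.card k : ℝ) ^ d' + 2 * d * Real.sqrt ((Fintype.card k : ℝ) ^ d') *
      (Irn k d).card) * ∑ P ∈ Irn k d, w P ^ 2

/-- **JOB GR-INJ.** Linear relations between the symbols of fixed primes at a variable one.
(`t_INJ (h1 : S_FLD) (h2 : S_SGD) (h3 : S_RTP) : S_INJ`.)
Proof. `E` = the field `K_d`, `χ` its quadratic character, `θ_κ = rt (P κ)`. For `x ∈ E`, `x` not conjugate to a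
`θ_κ`, let `h_κ(x) = ∑_(c<r) b_(κ,c)(x) ξ^c`, `b_(κ,c)(x) ∈ F2` the symbol of
`G_(κ,c)(x) = ∏_(l<deg P κ, l%r=c) (x - θ_κ^(q^l)) ∈ E`. `G_(κ,c)(x^q) = G_(κ,c-1)(x)^q`, so `h_κ(x^q) = ξ h_κ(x)`
(`ξ^r = 1`) and the condition `∑_κ v κ h_κ(x) = 0` is invariant under `x ↦ x^q`. So `d` times the number of the `P` in
the set (`x = rt P`, `h_κ(rt P) = hv r ξ (P κ) P`) is the number of the elements `x ∈ E` of degree exactly `d` with
this condition. For `λ ∈ F` put `u_(κ,c)(λ) = tr (λ v κ ξ^c) ∈ F2` and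
`G_λ = ∏_κ ∏_(c : u_(κ,c)(λ) = 1) G_(κ,c)`. For all `x ∈ E` the sum `∑_λ χ (G_λ(x))` is `≥ 0` (it is the sum of the
character `λ ↦ ∏ χ (G_(κ,c)(x))^(u_(κ,c)(λ))` over the subgroup of the `λ` with `u_(κ,c)(λ) = 0` for all `(κ, c)` with
`G_(κ,c)(x) = 0`), and for the `x` which we count it is `∑_λ sg (tr (λ ∑_κ v κ h_κ(x))) = |F|`. So
`|F| d # ≤ ∑_λ ∑_x χ (G_λ(x))`. `λ = 0`: `q^d`. `λ ≠ 0`: some `v κ ≠ 0`, and `u_(κ,c)(λ) ≠ 0` for some `c < r` (the
`ξ^c` span `F` over `F2`, as `|F| = 2^f`, `f` the order of `2` modulo `r`), so `G_λ` is squarefree of degree between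
`1` and `D = ∑ deg P κ` (its coefficients are in `K_r ⊆ K_d`, it is a polynomial over `E`); `weil_sharp` gives
`D (q^d)^(1/2)`. Total: `|F| d # ≤ q^d + |F| D (q^d)^(1/2)`. -/
def S_INJ : Prop := ∀ (k : Type) [Field k] [Fintype k], ringChar k ≠ 2 → ∀ (r : ℕ) (F : Type) [Field F]
  [Fintype F] [Algebra F2 F] (ξ : F), IsRt r ξ → ∀ (ν : Type) [Fintype ν] (P : ν → k[X]),
  (∀ κ, (P κ).Monic) → (∀ κ, Irreducible (P κ)) → Function.Injective P → (∀ κ, r ∣ (P κ).natDegree) →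
  ∀ d : ℕ, 0 < d → r ∣ d → (∀ κ, (P κ).natDegree ≠ d) → ∀ v : ν → F, v ≠ 0 →
  (d : ℝ) * ((Irn k d).filter fun P' => ∑ κ, v κ * hv r ξ (P κ) P' = 0).card ≤
    (Fintype.card k : ℝ) ^ d / Fintype.card F +
      (∑ κ, ((P κ).natDegree : ℝ)) * Real.sqrt ((Fintype.card k : ℝ) ^ d)

/-- **JOB GR-GEN.** The types of the primes of large degree.
Proof. For `M ≠ 0`, not a constant times a square: `d ∑_(P ∈ Irn k d, P ∤ M) sg (L M P) = ∑ χ_E (M(x))` over the
`x ∈ E = K_d` of degree exactly `d`, which differs from the sum over all `x ∈ E` by at most `2 (q^d)^(1/2)`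
(proper subfields), and the latter is at most `deg M (q^d)^(1/2)` by `weil_sharp` (`M` is not a constant times a
square over `E` either: `k` is perfect and every constant of `k`... : if `M = c h^2` over `E` with `M` over `k`, then
all the multiplicities of the irreducible factors of `M` are even, so `M` is a constant times a square over `k`). Or
use the results on `lam` in `Pool/Agent/H341R2` (`prime sums`). So each of the three sums of `sg (L M P)` over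
`Irn k d`, `M = a b, a (a - b), b (a - b)`, is `o(#Irn k d)`, and with `L (a (a-b)) P + L (a b) P = L (b (a - b)) P`
(for `P` prime to `a b (a - b)`) the pair `(L (a (a-b)) P, L (a b) P)` takes each of its four values for a
proportion `1/4 + o(1)` of the `P`. Two of the four values are different from `(0, 0)` and `(p, q)`. -/
def S_GEN : Prop := ∀ (k : Type) [Field k] [Fintype k], ringChar k ≠ 2 → IsSquare (-1 : k) →
  ∀ a b : k[X], (∀ (c : k) (h : k[X]), a * b ≠ C c * h ^ 2) →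
  (∀ (c : k) (h : k[X]), a * (a - b) ≠ C c * h ^ 2) → (∀ (c : k) (h : k[X]), b * (a - b) ≠ C c * h ^ 2) →
  ∃ d₀ : ℕ, ∀ d ≥ d₀, ∀ p q : F2, (p, q) ≠ (0, 0) →
    (1 / 3 : ℝ) * (Irn k d).card ≤ ((Irn k d).filter fun P =>
      (L (a * (a - b)) P, L (a * b) P) ≠ (0, 0) ∧ (L (a * (a - b)) P, L (a * b) P) ≠ (p, q)).card

/-- **JOB GR-CNR.** The own symbols of a prime. This generalises `S_CNT` and `S_SPN` of
`Pool/Agent/Q269/GT/Stm.lean` (proofs: `Pool/Agent/Q269/GT`, jobs CNT, SPN; see also who landed them) from prime `d`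
and `r = d` to all `d` and all odd `r ∣ d`. (`t_CNR (h1 : S_FLD) (h2 : S_SGD) (h3 : S_RTP) (h4 : S_IRC) : S_CNR`.)
Proof. `E = K_d`, `χ` its quadratic character, `M = (r-1)/2`, `β_c = ξ^c + ξ^(-c)`, `Y` = the `F2`-span of
`β_1, …, β_M` in `F`. As in SPN `|Y|² ≥ |F| = 2^f`: all `β_i`, `i ∈ ℤ`, are in `Y` (`β_0 = 0`), `1 = ∑_(c≤M) β_c ∈ Y`
(`∑_(c<r) ξ^c = 0`), `β_1 β_i = β_(i+1) + β_(i-1)`, so `Y + ξ Y` is stable under multiplication by `ξ` and contains `1`,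
so it is `F`. For `x ∈ E` of degree exactly `d` and `1 ≤ c ≤ M` let `b_c(x)` be the symbol of
`∏_(l<d, l%r=c) (x - x^(q^l))`; by the symmetry (4) of SYP (or directly as below) `own r ξ P = ∑_(c≤M) b_c(x) β_c`,
`x = rt P` (`(1 + ξ^c) + (1 + ξ^(r-c)) = β_c`); it does not change if `x` is replaced by `x^q`. So `d` times the number
of the `P ∈ Irn k d` with `own r ξ P = y` is the number of the `x ∈ E` of degree `d` with `∑ b_c(x) β_c = y`.
All the factors `x - x^(q^l)` are in `E`, and `χ (x - x^(q^l)) = χ (x - x^(q^(d-l)))` (raise to the power `q^(d-l)`; `-1` is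
a square), so `(-1)^(b_c(x)) = ∏_(j ∈ A_c) χ (x - x^(q^j))`, `A_c = {1 ≤ j < d/2 : j ≡ ±c mod r}` (note that `r ∣ d`, and
if `d` is even then `d/2 ≡ 0` modulo `r` does not occur); the sets `A_c` are disjoint.
Let `h = (d-1)/2` (integer part), `u = f/4` (integer part; `u ≤ h`), `C_u` = the set of the `c ≤ M` such that `A_c`
meets `(h-u, h]`: at most `u` elements. `Λ` = the `F2`-linear forms `ℓ : Y → F2` with `ℓ(β_c) = 0` for `c ∈ C_u`:
`|Λ| ≥ |Y|/2^u`. We may assume `y ∈ Y`. For `ℓ ∈ Λ` let `g_ℓ = ∏_(c : ℓ(β_c)=1) ∏_(j∈A_c) (X - X^(q^j))`: its degree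
is at most `∑_(j ≤ h-u) q^j ≤ 2 q^(h-u)`. For every `x ∈ E`: `∑_(ℓ∈Λ) (-1)^(ℓ(y)) χ (g_ℓ(x)) ≥ 0` (the sum of a
character over the subgroup of the `ℓ` with `ℓ(β_c) = 0` for the `c` such that a factor vanishes), and it is `|Λ|` if
`x` has degree `d` and `∑ b_c(x) β_c = y`. So `|Λ| d # ≤ ∑_ℓ |∑_x χ (g_ℓ(x))|`; `ℓ = 0` gives `q^d`; for `ℓ ≠ 0`,
`ℓ(β_c) = 1` for some `c`, let `j₀` be the largest index in the product; an element `x₀` (of the algebraic closure)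
generating the field with `q^(j₀)` elements is a simple root of `g_ℓ` (`x₀^(q^j) ≠ x₀` for the other `j < j₀`, the
derivative of `X - X^(q^(j₀))` is `1`), so `g_ℓ` is not `C c * h^2` and `weil_sharp` gives
`2 q^(h-u) q^(d/2) ≤ 2 q^(d-u)`. So `d # ≤ q^d (2^u/|Y| + 2/q^u) ≤ q^d · 3/2^u` for each `y`
(`2^u/|Y| ≤ 2^(u - f/2) ≤ 2^(-u)`). Two values `y = 0, 1` and `q^d ≤ 2 d #Irn k d` (IRC). -/
def S_CNR : Prop := ∀ (k : Type) [Field k] [Fintype k], ringChar k ≠ 2 → IsSquare (-1 : k) →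
  5 ≤ Fintype.card k → ∀ (r : ℕ) (F : Type) [Field F] [Fintype F] [Algebra F2 F] (ξ : F), IsRt r ξ →
  ∀ d : ℕ, 0 < d → r ∣ d →
  (((Irn k d).filter fun P => own r ξ P = 0 ∨ own r ξ P = 1).card : ℝ) ≤
    12 / 2 ^ (orderOf (2 : ZMod r) / 4) * (Irn k d).card

/-- **JOB GR-ORD.** The orders of `2` are large on the average.
Proof. If `f_r = orderOf (2 : ZMod r)` then `r ∣ 2^(f_r) - 1`, and `f_r ≥ 1` for odd `r`. So the sum over the odd `r`
with `f_r = f` is at most `2^(-δ f)` times the number of divisors of `2^f - 1`, which is at most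
`C (2^f)^(δ/2)` (divisor bound; it may be in one of the libraries: search `divisors_le`, otherwise prove
`d(n) ≤ C_ε n^ε` by multiplicativity). -/
def S_ORD : Prop := ∀ δ : ℝ, 0 < δ →
  Summable fun r : ℕ => if Odd r then (2 : ℝ) ^ (-(δ * (orderOf (2 : ZMod r) : ℝ))) else 0

/-- **JOB GR-XIR.** The concrete fields.
Proof. `GaloisField 2 f` has `2^f` elements (`f = orderOf (2 : ZMod r) ≠ 0` for odd `r`), its multiplicative group
is cyclic of order `2^f - 1`, a multiple of `r`. -/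
def S_XIR : Prop := ∀ r : ℕ, Odd r → 1 < r → IsRt r (xi r)

end Pool.Agent.Q269.GR
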