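import Mathlib

/-!
# Project GR (helper269): rank growth of twists in constant field extensions of odd degree

Definitions for the linear algebra. `F` is a finite field of characteristic two (an algebra over
`F2 = ZMod 2`), usually the field generated by a root of unity `ξ` of odd order `r`.
-/

set_option autoImplicit false
set_option linter.all false

open scoped Classical
open Finset

namespace Pool.Agent.Q269.GR

abbrev F2 : Type := ZMod 2

section lin

variable {F : Type} [Field F] [Algebra F2 F]

/-- the element of `F` given by a bit -/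
def cf (x : F2) : F := algebraMap F2 F x

/-- the evaluation of a vector of bits at `ξ` -/
noncomputable def ev {g : ℕ} (ξ : F) (s : Fin g → F2) : F := ∑ c : Fin g, cf (s c) * ξ ^ (c : ℕ)

/-- The left side of the `i`-th equation: `∑_(j ≠ i) M_ij w_j + d_i w_i + (c_i y_i, a_i x_i)` for
`w_i = (x_i, y_i)`. -/
noncomputable def eqn {J : Type} [Fintype J] (M : J → J → F) (dd : J → F) (a c : J → F2)
    (w : J → F × F) (i : J) : F × F :=
  ∑ j, (if j = i then (0 : F) else M i j) • w j + dd i • w i +
    (cf (c i) * (w i).2, cf (a i) * (w i).1)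

/-- The kernel of the system with off-diagonal entries `M`, diagonal `dd` and types `a`, `c`. -/
noncomputable def Kn {J : Type} [Fintype J] (M : J → J → F) (dd : J → F) (a c : J → F2) :
    Submodule F (J → F × F) where
  carrier := {w | ∀ i, eqn M dd a c w i = 0}
  zero_mem' := by
    intro i
    simp [eqn]
  add_mem' := by
    intro w w' hw hw' i
    have h : eqn M dd a c (w + w') i = eqn M dd a c w i + eqn M dd a c w' i := by
      simp only [eqn, Pi.add_apply, smul_add, sum_add_distrib, Prod.fst_add, Prod.snd_add, mul_add]
      have e : ∀ x y x' y' : F, ((x + x', y + y') : F × F) = (x, y) + (x', y') := fun _ _ _ _ => rfl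
      rw [e]
      abel
    rw [h, hw i, hw' i, add_zero]
  smul_mem' := by
    intro t w hw i
    have h : eqn M dd a c (t • w) i = t • eqn M dd a c w i := by
      simp only [eqn, Pi.smul_apply, smul_add, Finset.smul_sum, Prod.smul_fst, Prod.smul_snd,
        smul_eq_mul]
      congr 1
      · congr 1
        · exact sum_congr rfl fun j _ => smul_comm _ _ _
        · exact smul_comm _ _ _
      · apply Prod.ext
        · exact mul_left_comm _ _ _
        · exact mul_left_comm _ _ _
    rw [h, hw i, smul_zero]

theorem mem_Kn {J : Type} [Fintype J] {M : J → J → F} {dd : J → F} {a c : J → F2}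
    {w : J → F × F} : w ∈ Kn M dd a c ↔ ∀ i, eqn M dd a c w i = 0 := Iff.rfl

end lin

/-- the type condition: for every nonzero `(p, q)` at least `m` of the indices in `Λ` have a type
different from `(0, 0)` and `(p, q)` -/
def Gen {J : Type} (Λ : Finset J) (a c : J → F2) (m : ℕ) : Prop :=
  ∀ p q : F2, (p, q) ≠ (0, 0) → m ≤ (Λ.filter fun i => (a i, c i) ≠ (0, 0) ∧ (a i, c i) ≠ (p, q)).card

/-- `-1` is a power of `2` modulo `r` (the unitary case) -/
def Un (r : ℕ) : Prop := ∃ m : ℕ, r ∣ 2 ^ m + 1

/-- the bound for the mean number of elements of the kernels: `Q + 9/8`, `Q² = 2^f`, `f` the order of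
`2` modulo `r`, in the unitary case, `17/8` in the other case -/
noncomputable def Eb (r : ℕ) : ℝ :=
  if Un r then (2 : ℝ) ^ (orderOf (2 : ZMod r) / 2) + 9 / 8 else 17 / 8

/-- the bound for the probability that the kernel is not zero -/
noncomputable def dl (r : ℕ) : ℝ := (Eb r - 1) / ((2 : ℝ) ^ orderOf (2 : ZMod r) - 1)

/-- `ξ` has order `r`, `r > 1` is odd, and generates `F` -/
structure IsRt (r : ℕ) {F : Type} [Field F] [Fintype F] [Algebra F2 F] (ξ : F) : Prop where
  odd : Odd r
  lt : 1 < r
  ord : orderOf ξ = r
  card : Fintype.card F = 2 ^ orderOf (2 : ZMod r)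

end Pool.Agent.Q269.GR
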