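import Pool.Agent.Q269.GR.StD

/-!
# Project GR: lemma jobs, the proportions

`q = Fintype.card k`, `Δ = a b (a - b)`.
-/

set_option autoImplicit false
set_option linter.all false

open scoped Classical
open Finset Polynomial

namespace Pool.Agent.Q269.GR

open Pool.Agent.Y164.PS (L sg)

/-- the polynomial is not a constant multiple of a square -/
def Ncs {k : Type} [Field k] (f : k[X]) : Prop := ∀ (c : k) (h : k[X]), f ≠ C c * h ^ 2

/-- the hypotheses on the field and the curve -/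
structure Hyk (k : Type) [Field k] [Fintype k] (a b : k[X]) : Prop where
  hk : ringChar k ≠ 2
  hm : IsSquare (-1 : k)
  hq : 5 ≤ Fintype.card k
  h0 : a * b * (a - b) ≠ 0
  h1 : Ncs (a * b)
  h2 : Ncs (a * (a - b))
  h3 : Ncs (b * (a - b))

/-- **JOB GR-SMD.** The probabilities are between `0` and `1` and summable. (`t_SMD (h : S_ORD) : S_SMD`.)
Proof. `f = orderOf (2 : ZMod r) ≥ 2` for odd `r > 1` (`r ∣ 2^f - 1`), `f ≥ 3` if `r` is not `Un` (`f = 2` means `r = 3`,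
`3 ∣ 2^1 + 1`). If `Un r` and `m` is the least with `r ∣ 2^m + 1` then `f = 2m`, so `f` is even (needed: `2^(f/2)` with
the natural number division: `2^(f/2) ≤ 2^f^(1/2)` in any case). `dl r = (2^(f/2) + 1/8)/(2^f - 1) ≤
(9/8) 2^(f/2)/((3/4) 2^f) = (3/2) 2^(-f/2)` or `(9/8)/(2^f - 1)`; ORD with `δ = 1/2` (for odd `f` `2^(f/2)` with the
natural number division is smaller). `dl r < 1`: `2^(f/2) + 1/8 < 2^f - 1` for `f ≥ 2` (`2^(f/2) ≤ 2^(f-1)`,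
`2^(f-1) ≥ 2 > 9/8`), `9/8 < 2^f - 1` for `f ≥ 3`. -/
def S_SMD : Prop := (∀ r : ℕ, Odd r → 1 < r → 0 ≤ dl r ∧ dl r < 1) ∧
  Summable (fun r : ℕ => if Odd r ∧ 1 < r then dl r else 0)

/-- the orders up to `y` -/
noncomputable def RO (y : ℕ) : Finset ℕ := (range (y + 1)).filter fun r => Odd r ∧ 1 < r

/-- the tail -/
noncomputable def tl (y : ℕ) : ℝ := ∑' r : ℕ, if Odd r ∧ 1 < r ∧ y < r then dl r else 0

/-- **JOB GR-ABS.** The infinite product is positive. (`t_ABS (h : S_SMD) : S_ABS`.)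
Proof. First part: for summable `0 ≤ x_r < 1` the partial products of `1 - x_r` are bounded below by a positive
number `c` (`∏ (1 - x_r) ≥ 1 - ∑ x_r` from some index on, and the finitely many others are positive), and the tails of a
convergent series tend to `0`. Second part: tails tend to `0`. -/
def S_ABS : Prop := (∃ y : ℕ, 0 < ∏ r ∈ RO y, (1 - dl r) - tl y) ∧ (∀ y, 0 ≤ tl y) ∧
  Filter.Tendsto tl Filter.atTop (nhds 0)

/-- **JOB GR-ENA.** Finitely many orders, with an admissible property `f`.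
(`t_ENA (h1 : S_CLA) (h2 : S_DEC) (h3 : S_TYA) (h4 : S_ERA) (h5 : S_GEN) (h6 : S_TNP) (h7 : S_PRD) (h8 : S_AVP)
(h9 : S_SMD) : S_ENA`.)
Proof. `t = tn n → ∞`, `N = ∏_(r∈R) r` (odd), `μ d := t^40 < d`, `X = XA Δ n`. DEC with
`φ D = π 1_f(D) - ε'`, `π = ∏ (1 - dl r) ∈ [0,1]`, `ψ D = 1_(f ∧ ∀ r ∈ R, Good r)(D)`. The set `X` is closed under moves
inside a cell: by PRD the number and the degrees of the primes are the same, and moving degrees are different. In a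
cell (`∏ P0 ∈ X`, `mv = {i | t^40 < dg P0 i}`): `m ≤ t^12`, at most `t/100` fixed indices, each of degree `≤ t^40`; for
`r ∈ R` (`r ≤ t^8` for large `n`) at least `t²/8` moving indices with `r ∣ dg P0 i`. `Hyn`: GEN for the moving degrees
(`> t^40 ≥ d₀`); `12 · 2^r (t^41 + 2) ≤ 5^(t^40/2)` for large `n`. `nn ≤ 5 · 2^(t/25 + 64) (5/6)^(t²/8) → 0`. ERA with
`z = t^40`: `erT ≤ t^24 (2^(eT + N t^12) 8 N / 2^(t^40/2))^(1/2) → 0` (`eT ≤ (t^12+1)(2 + ∑ r) + deg Δ + 3`). So for large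
`n` CLA gives the hypothesis of DEC. The conclusion of DEC, `#X ≤ #Dn ≤ q^n` and TYA (the `D ∈ Dn \ X` are at
most `ε'' q^n`) give the claim. -/
def S_ENA : Prop := ∀ (k : Type) [Field k] [Fintype k] (a b : k[X]), Hyk k a b →
  ∀ R : Finset ℕ, (∀ r ∈ R, Odd r ∧ 1 < r) → ∀ ε : ℝ, 0 < ε → ∀ᶠ n : ℕ in Filter.atTop,
  ∀ f : k[X] → Prop, Adm a b f →
  (∏ r ∈ R, (1 - dl r)) * (((Dn (a * b * (a - b)) n).filter fun D => f D).card : ℝ) -
      ε * (Fintype.card k : ℝ) ^ n ≤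
    (((Dn (a * b * (a - b)) n).filter fun D => f D ∧ ∀ r ∈ R, Good r a b D).card : ℝ)

/-- **JOB GR-EB1.** The orders up to `t^8`, one by one.
(`t_EB1 (h1 : S_CLA) (h2 : S_DEC) (h3 : S_TYA) (h4 : S_ERA) (h5 : S_GEN) (h6 : S_TNP) (h7 : S_PRD) (h8 : S_AVP)
(h9 : S_SMD) : S_EB1`.)
Proof. As ENA with `R = {r}`, `N = r`, uniformly in `r ≤ t^8`, `t = tn n`: in a cell
`#{f ∧ ¬ Good r} ≤ dl r #{f} + (nn + 2 erT) |C|`, `nn ≤ 5 · 2^(t/25 + 64) (5/6)^(t²/8)`,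
`erT ≤ t^24 (2^(eT + t^20) 8 t^8 / 2^(t^40/2))^(1/2)`, `eT ≤ (t^12+1)(2 + t^8) + deg Δ + 3`, and `t^8` times these still tends to
`0`. By DEC (with `X = XA Δ n`, `φ = 1_(f ∧ ¬ Good r)`, `ψ = dl r 1_f + ε'/t^8`) summed over the `r`:
`∑_r #{D ∈ XA : f ∧ ¬ Good r} ≤ ∑_r dl r #{D ∈ XA : f} + ε' q^n`. -/
def S_EB1 : Prop := ∀ (k : Type) [Field k] [Fintype k] (a b : k[X]), Hyk k a b →
  ∀ ε : ℝ, 0 < ε → ∀ᶠ n : ℕ in Filter.atTop, ∀ f : k[X] → Prop, Adm a b f → ∀ y : ℕ,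
  (((Dn (a * b * (a - b)) n).filter fun D => f D ∧
      ∃ r : ℕ, Odd r ∧ 1 < r ∧ y < r ∧ r ≤ tn n ^ 8 ∧ ¬ Good r a b D).card : ℝ) ≤
    tl y * (((Dn (a * b * (a - b)) n).filter fun D => f D).card : ℝ) + ε * (Fintype.card k : ℝ) ^ n

/-- **JOB GR-EB2.** The large orders: almost no twist has a bad order `r > t^8`.
(`t_EB2 (h1 : S_CLC) (h2 : S_DEC) (h3 : S_TYB) (h4 : S_ERB) (h5 : S_AVP) (h6 : S_TNP) (h7 : S_PRD) (h8 : S_ORD) :
S_EB2`.)
Proof. `t = tn n`. If `r > n` no prime divisor has degree divisible by `r`, the index type of `KD` is empty, so `Good r`.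
Let `t^8 < r ≤ n`, `r` odd, `X = XB Δ n`, `μ d := 0 < d ∧ r ∣ d` (then `d ≥ r > t^8`, `≥ deg Δ` for large `n`), `f_r` =
`orderOf (2 : ZMod r)`. In a cell with `J` moving indices (`J(D) = #{P ∈ pr D : r ∣ deg P}`) CLC and ERB (`m ≤ t^12`) bound
the proportion of the `D` which are not `Good` by `2J/2^(f_r/2) + t^24 · 6 (r+4) (4/5)^r` if `J ≥ 2`, by
`12/2^(f_r/4)` if `J = 1`, by `0` if `J = 0` (natural number divisions in the exponents). So by DEC (`φ = 1_(¬ Good r)`,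
`ψ D = 2 J(D)/2^(f_r/2) + 12/2^(f_r/4) + t^24 · 6 (r+4) (4/5)^r`, constant on cells) and AVP (`∑_D J(D) ≤
q^n ∑_(d ≤ n, r ∣ d) 1/d ≤ q^n (1 + log n)/r`, `log n < (t+1)^10`), the number of the `D ∈ X` such that some `r` in
`(t^8, n]` is not good is at most `q^n` times
`∑_(r>t^8, odd) (2 (2 + t)^10 /(r 2^(f_r/2)) + 12/2^(f_r/4) + t^24 · 6 (r+4) (4/5)^r)`. As `r < 2^(f_r)`:
`1/2^(f_r/2) ≤ √2 2^(-f_r/2) ≤ √2 r^(-3/8) 2^(-f_r/8)`, and `r^(-1-3/8) ≤ t^(-11)`; so the first sum is at most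
`3 (2+t)^10 t^(-11) ∑_r 2^(-f_r/8)`, which tends to `0` by ORD (`δ = 1/8`); the second is the tail of a convergent series
(`δ = 1/4`); the third tends to `0`. Finally TYB. -/
def S_EB2 : Prop := ∀ (k : Type) [Field k] [Fintype k] (a b : k[X]), Hyk k a b →
  ∀ ε : ℝ, 0 < ε → ∀ᶠ n : ℕ in Filter.atTop,
  (((Dn (a * b * (a - b)) n).filter fun D =>
      ∃ r : ℕ, Odd r ∧ 1 < r ∧ tn n ^ 8 < r ∧ ¬ Good r a b D).card : ℝ) ≤ ε * (Fintype.card k : ℝ) ^ n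

/-- **JOB GR-ENC.** The size of the kernel for one order.
(`t_ENC (h1 : S_CLB) (h2 : S_DEC) (h3 : S_TYA) (h4 : S_ERA) (h5 : S_GEN) (h6 : S_TNP) (h7 : S_PRD) (h8 : S_AVP) :
S_ENC`.)
Proof. As ENA, with CLB. -/
def S_ENC : Prop := ∀ (k : Type) [Field k] [Fintype k] (a b : k[X]), Hyk k a b →
  ∀ r : ℕ, Odd r → 1 < r → ∀ X : ℝ, 0 < X → ∀ ε : ℝ, 0 < ε → ∀ᶠ n : ℕ in Filter.atTop,
  (((Dn (a * b * (a - b)) n).filter fun D => X ≤ (Nat.card (KD r (xi r) a b D) : ℝ)).card : ℝ) ≤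
    Eb r / X * ((Dn (a * b * (a - b)) n).card : ℝ) + ε * (Fintype.card k : ℝ) ^ n

end Pool.Agent.Q269.GR
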