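import Pool.Agent.Q269.GR.StA
import Pool.Agent.Q269.GR.StB

/-!
# Project GR: lemma jobs, cells of twists

`q = Fintype.card k`, `Δ = a b (a - b)`. A cell is given by a family `P0 : Fin m → k[X]` of different monic
irreducible polynomials prime to `Δ` and a set `mv` of moving indices: the moving `P0 i` are replaced
independently by arbitrary monic irreducible polynomials of the same degree.
-/

set_option autoImplicit false
set_option linter.all false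

open scoped Classical
open Finset Polynomial

namespace Pool.Agent.Q269.GR

open Pool.Agent.Y164.PS (L sg)

section cells

variable {k : Type} [Field k] [Fintype k]

/-- the degrees -/
noncomputable def dg {m : ℕ} (P0 : Fin m → k[X]) (i : Fin m) : ℕ := (P0 i).natDegree

/-- the cell -/
noncomputable def Ce {m : ℕ} (P0 : Fin m → k[X]) (mv : Finset (Fin m)) (i : Fin m) : Finset k[X] :=
  if i ∈ mv then Irn k (dg P0 i) else {P0 i}

/-- the conditions on a cell -/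
structure IsCe (Δ : k[X]) {m : ℕ} (P0 : Fin m → k[X]) (mv : Finset (Fin m)) : Prop where
  fam : Pfam Δ P0
  mono : ∀ i ∈ mv, ∀ j ∈ mv, i < j → dg P0 i < dg P0 j
  fix : ∀ i ∈ mv, ∀ j, j ∉ mv → dg P0 i ≠ dg P0 j
  big : ∀ i ∈ mv, Δ.natDegree < dg P0 i

/-- the symbols of an element of the cell -/
noncomputable def sT (N : ℕ) {m : ℕ} (P0 T : Fin m → k[X]) : Bt N (dg P0) :=
  fun i j c => sy (gg N (dg P0) i j) (T i) (T j) c

/-- the error term -/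
noncomputable def erT (N : ℕ) {m : ℕ} (P0 : Fin m → k[X]) (mv : Finset (Fin m)) (τ : ℝ) : ℝ :=
  ∑ i, ∑ j, if i < j ∧ i ∈ mv ∧ j ∈ mv then
    Real.sqrt (τ * 2 ^ (∑ l ∈ mv.filter (· ≤ i), gg N (dg P0) l j) *
      (2 * gg N (dg P0) i j / (Irn k (dg P0 i)).card +
        4 * gg N (dg P0) i j * dg P0 i / Real.sqrt ((Fintype.card k : ℝ) ^ dg P0 j))) else 0

section data

variable {F : Type} [Field F] [Algebra F2 F] {m : ℕ}

/-- the data of an element of the cell -/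
noncomputable def FxR (r : ℕ) (ξ : F) (T : Fin m → k[X]) (i j : Fin m) : F :=
  if i = j then 0 else hv r ξ (T j) (T i)
noncomputable def owR (r : ℕ) (ξ : F) (T : Fin m → k[X]) (i : Fin m) : F := own r ξ (T i)
noncomputable def acR (a b : k[X]) (T : Fin m → k[X]) (i : Fin m) : F2 := L (a * (a - b)) (T i)
noncomputable def ccR (a b : k[X]) (T : Fin m → k[X]) (i : Fin m) : F2 := L (a * b) (T i)
noncomputable def alR (a : k[X]) (T : Fin m → k[X]) (i : Fin m) : F2 := L a (T i)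
noncomputable def A0R (T : Fin m → k[X]) (i j : Fin m) : F2 := L (T j) (T i)

end data

end cells

/-- **JOB GR-PRD.** The prime divisors of a squarefree polynomial.
Proof. Unique factorisation; a monic squarefree polynomial is the product of its monic prime divisors. The
number of the monic prime divisors of `Δ ≠ 0` is at most its degree. Last part: the elements of a cell
(`IsCe.mono` and `IsCe.fix`: the degrees of different moving indices are different, and different from the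
degrees of the fixed ones; a divisor of `Δ` has degree at most `deg Δ`). -/
def S_PRD : Prop := ∀ (k : Type) [Field k] [Fintype k] (Δ : k[X]), Δ ≠ 0 →
  (∀ (ι : Type) [Fintype ι] (P : ι → k[X]), Pfam Δ P → pr (∏ i, P i) = univ.image P ∧
    ∏ i, P i ∈ Dn Δ (∑ i, (P i).natDegree)) ∧
  (∀ (n : ℕ) (D : k[X]), D ∈ Dn Δ n → ∏ P ∈ pr D, P = D ∧ ∑ P ∈ pr D, P.natDegree = n ∧
    ∀ P, P ∈ pr D ↔ P.Monic ∧ Irreducible P ∧ P ∣ D) ∧
  (∀ (n : ℕ) (D : k[X]), D ∈ Dn Δ n → Pfam Δ (fun P : {P : k[X] // P ∈ pr D} => P.1)) ∧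
  (pr Δ).card ≤ Δ.natDegree ∧ (∀ P, P ∈ pr Δ ↔ P.Monic ∧ Irreducible P ∧ P ∣ Δ) ∧
  (∀ (m : ℕ) (P0 : Fin m → k[X]) (mv : Finset (Fin m)), IsCe Δ P0 mv → ∀ T ∈ Fintype.piFinset (Ce P0 mv),
    Pfam Δ T ∧ (∀ i, (T i).natDegree = dg P0 i) ∧ ∀ i, i ∉ mv → T i = P0 i)

/-- **JOB GR-TRF.** In a cell the symbols of the pairs of moving primes are uniform and independent of the
types. (`t_TRF (h1 : S_OPB) (h2 : S_DUA) (h3 : S_CHN) (h4 : S_IRC) (h5 : S_PRD) : S_TRF`.)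
Proof. CHN with `Θ i = {P // P ∈ Ce P0 mv i}`, `B i j = (Fin (g' i j) → F2)`, `g' i j = gg N d i j` if
`i, j ∈ mv`, and `0` otherwise, `x i j P P' = (sy (gg N d i j) P P' c)_c`, `Φ = 1_Ψ` (a function of the types: choose for
every family of types which occurs a representative `T`; it depends only on the bits of the moving pairs `i < j`; the
mean over `Bt N d` is the mean over the coordinates which matter). Hypothesis on the characters: `c ≠ 0` is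
`s ↦ ∑ u_c s_c` with `u ≠ 0`; OPB (with `d = dg P0 i < d' = dg P0 j`, `g = gg N d i j`, it divides both) and DUA give
`∑_(P ∈ Θ i) (∑_(P' ∈ Θ j) g(P') sg (…))² ≤ C ∑ g²`, `C = (g/d_j) (Q + 2 d_i √Q #Irn d_i)`, `Q = q^(d_j)`; by IRC
`Q ≤ 2 d_j #Irn d_j`, so `C ≤ η #Irn d_i #Irn d_j` with `η = 2g/#Irn d_i + 4 g d_i/√Q`. For pairs which are not both
moving there is no `c ≠ 0`; `η = 0` there. -/
def S_TRF : Prop := ∀ (k : Type) [Field k] [Fintype k], ringChar k ≠ 2 → 5 ≤ Fintype.card k →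
  ∀ (Δ : k[X]), Δ ≠ 0 → ∀ (N m : ℕ) (P0 : Fin m → k[X]) (mv : Finset (Fin m)), 0 < N → IsCe Δ P0 mv →
  ∀ (𝒯 : Type) [Fintype 𝒯] (t : Fin m → k[X] → 𝒯) (Ψ : (Fin m → k[X]) → Bt N (dg P0) → Prop),
  (∀ T ∈ Fintype.piFinset (Ce P0 mv), ∀ T' ∈ Fintype.piFinset (Ce P0 mv),
    (∀ i, t i (T i) = t i (T' i)) → ∀ s, Ψ T s ↔ Ψ T' s) →
  (∀ T s s', (∀ i j, i < j → i ∈ mv → j ∈ mv → s i j = s' i j) → (Ψ T s ↔ Ψ T s')) →
  |((((Fintype.piFinset (Ce P0 mv)).filter fun T => Ψ T (sT N P0 T)).card : ℕ) : ℝ) -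
      (∑ T ∈ Fintype.piFinset (Ce P0 mv), (((univ.filter fun s => Ψ T s).card : ℕ) : ℝ)) /
        Fintype.card (Bt N (dg P0))| ≤
    (Fintype.piFinset (Ce P0 mv)).card * erT N P0 mv (Fintype.card 𝒯)

/-- **JOB GR-REA.** The kernels of the elements of a cell are given by the model.
(`t_REA (h1 : S_SYP) (h2 : S_UNR) (h3 : S_PRD) : S_REA`.)
Proof. Index the prime divisors of `∏ T i` by `Fin m` (PRD; `KD` is `KF` of the family of all prime divisors;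
reindexing `{i // r ∣ dg P0 i} ≃ {P // P ∈ pr (∏ T i)} with r ∣ deg` transports the equations). It remains to compare
the coefficients. `i ≠ j`, both moving, `r ∣ d_i, d_j`, `g = gg N d i j` (a multiple of `r`): for `j < i`:
`hv r ξ (T j) (T i) = ev ξ (sT j i)` (SYP (5)); for `i < j`: `hv r ξ (T j) (T i) = hv r ξ⁻¹ (T i) (T j)` (SYP (6) with
`g = r`) `= ev ξ⁻¹ (sT i j)` (SYP (5)). Trivial symbols: SYP (1) with `g = gg N d i j`, and `L_comm`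
(`Pool.Agent.Y164.PS.Sym`). Hermitian property: SYP (6) with `g = r` and UNR; `own r ξ P ^ Q = own r ξ P`: by SYP (4)
`own = ∑_c sy_c (1 + ξ^c)` is invariant under `c ↦ r - c`, and `(1 + ξ^c)^Q = 1 + ξ^(-c)`. -/
def S_REA : Prop := ∀ (k : Type) [Field k] [Fintype k], ringChar k ≠ 2 → IsSquare (-1 : k) →
  ∀ (a b : k[X]), a * b * (a - b) ≠ 0 → ∀ (N m : ℕ) (P0 : Fin m → k[X]) (mv : Finset (Fin m)), 0 < N →
  IsCe (a * b * (a - b)) P0 mv → ∀ T ∈ Fintype.piFinset (Ce P0 mv),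
  (∀ i j, i ≠ j → AA N (dg P0) mv (A0R T) (sT N P0 T) i j = L (T j) (T i)) ∧
  ∀ (r : ℕ) (F : Type) [Field F] [Fintype F] [Algebra F2 F] (ξ : F), IsRt r ξ → r ∣ N →
    Herm (dg P0) mv r (FxR r ξ T) (owR r ξ T) ∧
    Nat.card (KM N (dg P0) mv r (A0R T) (alR a T) (FxR r ξ T) (owR r ξ T) (acR a b T) (ccR a b T) ξ
      (sT N P0 T)) = Nat.card (KD r ξ a b (∏ i, T i)) ∧
    (KM N (dg P0) mv r (A0R T) (alR a T) (FxR r ξ T) (owR r ξ T) (acR a b T) (ccR a b T) ξ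
      (sT N P0 T) = ⊥ ↔ KD r ξ a b (∏ i, T i) = ⊥)

/-- **JOB GR-NIC.** Most elements of a cell have nice data for the order `r`.
(`t_NIC (h1 : S_INJ) (h2 : S_UNR) (h3 : S_SYP) (h4 : S_IRC) (h5 : S_PRD) : S_NIC`.)
Proof. `d = dg P0`, `S` = the fixed indices with `r ∣ d i`, `σ = |S|`, `Λ` = the moving ones, `λ = |Λ| ≥ σ`.
inj2 fails iff there is a `v ≠ 0` supported on `S` with `∑_(i∈S) v i * hv r ξ (P0 i) (T j) = 0` for all `j ∈ Λ`
(`FxR j i = hv r ξ (T i) (T j)`). For fixed `v` and `j` the number of such `T j ∈ Irn k (d j)` is, by INJ,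
at most `(q^d/|F| + D q^(d/2))/d`, `d = d j`, `D = ∑_(i∈S) d i`, and `d #Irn ≥ q^d - 2 q^(d/2)` (IRC (3)); since
`12 |F| (D + 2) ≤ q^(d/2)` (`|F| = 2^f ≤ 2^r`) it is at most `4/(3 |F|) #Irn k (d j)` (`(1 + 1/12)/(1 - 1/48) ≤ 4/3`). The
coordinates of `T` are independent, so for fixed `v` the proportion of the `T` is at most `(4/(3|F|))^λ`, and the
sum over the `v` is at most `|F|^σ (4/(3|F|))^λ ≤ 4^σ 3^(-λ)` (`|F| ≥ 4`, `σ ≤ λ`). inj1: the same with `ξ⁻¹`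
(`FxR i j = hv r ξ (T j) (T i) = hv r ξ⁻¹ (T i) (T j)`, SYP (6); `IsRt r ξ⁻¹` by UNR). `gen`: for each of the three
`(p, q) ≠ 0` the number `#(T)` of the `j ∈ Λ` whose type is not `(0,0)`, `(p,q)` satisfies
`mean of 2^(-#(T)) ≤ (1 - (1/3)(1/2))^λ = (5/6)^λ` (hypothesis on the types, independence), so the proportion of the
`T` with `#(T) < M = 4σ + 64` is at most `2^M (5/6)^λ`. Total `2 · 4^σ 3^(-λ) + 3 · 2^M (5/6)^λ ≤ 5 · 2^M (5/6)^λ`. -/
def S_NIC : Prop := ∀ (k : Type) [Field k] [Fintype k], ringChar k ≠ 2 → IsSquare (-1 : k) →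
  5 ≤ Fintype.card k → ∀ (a b : k[X]), a * b * (a - b) ≠ 0 → ∀ (m : ℕ) (P0 : Fin m → k[X])
  (mv : Finset (Fin m)), IsCe (a * b * (a - b)) P0 mv → ∀ (r : ℕ) (F : Type) [Field F] [Fintype F]
  [Algebra F2 F] (ξ : F), IsRt r ξ →
  (∀ j ∈ mv, ∀ p q : F2, (p, q) ≠ (0, 0) →
    (1 / 3 : ℝ) * (Irn k (dg P0 j)).card ≤ ((Irn k (dg P0 j)).filter fun P =>
      (L (a * (a - b)) P, L (a * b) P) ≠ (0, 0) ∧ (L (a * (a - b)) P, L (a * b) P) ≠ (p, q)).card) →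
  (∀ j ∈ mv, 12 * 2 ^ r * (∑ i ∈ univ.filter (· ∉ mv), (dg P0 i : ℝ) + 2) ≤
    Real.sqrt ((Fintype.card k : ℝ) ^ dg P0 j)) →
  (univ.filter fun i => i ∉ mv ∧ r ∣ dg P0 i).card ≤ (mv.filter fun i => r ∣ dg P0 i).card →
  ((((Fintype.piFinset (Ce P0 mv)).filter fun T =>
      ¬ Nice (dg P0) mv r (FxR r ξ T) (owR r ξ T) (acR a b T) (ccR a b T)).card : ℕ) : ℝ) ≤
    5 * 2 ^ (4 * (univ.filter fun i => i ∉ mv ∧ r ∣ dg P0 i).card + 64) *
      (5 / 6) ^ (mv.filter fun i => r ∣ dg P0 i).card * (Fintype.piFinset (Ce P0 mv)).card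

/-- the probability that the data are not nice -/
noncomputable def nn {k : Type} [Field k] [Fintype k] {m : ℕ} (P0 : Fin m → k[X]) (mv : Finset (Fin m))
    (r : ℕ) : ℝ :=
  5 * 2 ^ (4 * (univ.filter fun i => i ∉ mv ∧ r ∣ dg P0 i).card + 64) *
      (5 / 6) ^ (mv.filter fun i => r ∣ dg P0 i).card

/-- the hypotheses of NIC for all the orders in `R` -/
def Hyn {k : Type} [Field k] [Fintype k] (a b : k[X]) {m : ℕ} (P0 : Fin m → k[X]) (mv : Finset (Fin m))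
    (R : Finset ℕ) : Prop :=
  (∀ j ∈ mv, ∀ p q : F2, (p, q) ≠ (0, 0) →
    (1 / 3 : ℝ) * (Irn k (dg P0 j)).card ≤ ((Irn k (dg P0 j)).filter fun P =>
      (L (a * (a - b)) P, L (a * b) P) ≠ (0, 0) ∧ (L (a * (a - b)) P, L (a * b) P) ≠ (p, q)).card) ∧
  ∀ r ∈ R, Odd r ∧ 1 < r ∧
    (∀ j ∈ mv, 12 * 2 ^ r * (∑ i ∈ univ.filter (· ∉ mv), (dg P0 i : ℝ) + 2) ≤
      Real.sqrt ((Fintype.card k : ℝ) ^ dg P0 j)) ∧
    (univ.filter fun i => i ∉ mv ∧ r ∣ dg P0 i).card ≤ (mv.filter fun i => r ∣ dg P0 i).card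

/-- the exponent in the number of types -/
noncomputable def eT {k : Type} [Field k] (a b : k[X]) (m : ℕ) (R : Finset ℕ) : ℕ :=
  (m + 1) * (2 + ∑ r ∈ R, r) + (a * b * (a - b)).natDegree + 3

/-- **JOB GR-CLA.** The proportion of the good twists in a cell, for finitely many orders `r`, inside the
set defined by an admissible property `f`.
(`t_CLA (h1 : S_TRF) (h2 : S_REA) (h3 : S_NIC) (h4 : S_LAR2) (h5 : S_PRD) (h6 : S_XIR) : S_CLA`.)
Proof. `C = piFinset (Ce P0 mv)`, `F r = Fr r`, `ξ r = xi r`. The type `t i P` of a polynomial `P` consists of the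
following bits: `L (P0 j) P` for `j ∉ mv`, `L Q P` for the monic prime divisors `Q` of `Δ` (at most `deg Δ` by PRD),
`sy r (P0 j) P c` and `sy r P P c` for `j ∉ mv`, `r ∈ R`, `c < r`, `L a P`, `L (a b) P`, `L (a (a - b)) P`: at most
`m + deg Δ + (m + 1) ∑ r + 3 ≤ eT` bits, so `𝒯` = the vectors of `eT` bits, `2^eT` elements (or `erT` is monotone in
`τ`). For `T ∈ C` the data `FxR` (for the pairs not both moving: `hv r ξ (P0 j) P` by definition for the evaluation at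
the moving one, and for the evaluation at the fixed one use SYP (6) or record the bits `sy r P (P0 j) c` instead or
as well: then take them as further bits; the exponent `eT` has room only for one of the two, so use SYP (6):
`hv r ξ P (P0 j) = hv r ξ⁻¹ (P0 j) P`), `owR`, `acR`, `ccR`, `alR`, `A0R` (for pairs not both moving, up to `L_comm`)
depend only on the types. Put `f'(T, A) := ∃ T' ∈ C` with the same types as `T`, `A i j = L (T' j) (T' i)` for all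
`i ≠ j`, and `f (∏ T')`. By `Adm` (the degrees agree; the symbols of the pairs and of the bad primes agree):
`f'(T, A(T)) ↔ f (∏ T)`, `A(T) i j = L (T j) (T i)` for `i ≠ j`.
`Ψ₁ T s := f'(T, AA (A0R T) s) ∧ ∀ r ∈ R, KM … s = ⊥`, `Ψ₂ T s := f'(T, AA (A0R T) s)`; both depend on `T` through the
types only (for the data of pairs which are both moving `FxR`, `A0R` do not matter in `KM`, `AA`). By REA:
`Ψ₁ T (sT T) ↔ f (∏ T) ∧ ∀ r ∈ R, Good r`. By TRF, LAR2 (for the `T` with nice data for all `r ∈ R`) and NIC, with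
`e = erT N P0 mv (2^eT)`, `ν = ∑_(r∈R) nn`, `π = ∏ (1 - dl r) ∈ [0, 1]`:
`#{Ψ₁ T (sT T)} ≥ ∑_T #{s | Ψ₁ T s}/#Bt - e |C| ≥ π ∑_(T nice) #{s | Ψ₂ T s}/#Bt - e |C| ≥
π ∑_T #{s | Ψ₂ T s}/#Bt - (ν + e) |C| ≥ π (#{T | f (∏ T)} - e |C|) - (ν + e) |C|`. -/
def S_CLA : Prop := ∀ (k : Type) [Field k] [Fintype k], ringChar k ≠ 2 → IsSquare (-1 : k) →
  5 ≤ Fintype.card k → ∀ (a b : k[X]), a * b * (a - b) ≠ 0 → ∀ (N m : ℕ) (P0 : Fin m → k[X])
  (mv : Finset (Fin m)) (R : Finset ℕ), IsCe (a * b * (a - b)) P0 mv → Odd N → (∀ r ∈ R, r ∣ N) →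
  Hyn a b P0 mv R → ∀ f : k[X] → Prop, Adm a b f →
  (∏ r ∈ R, (1 - dl r)) * (((Fintype.piFinset (Ce P0 mv)).filter fun T => f (∏ i, T i)).card : ℝ) -
      (∑ r ∈ R, nn P0 mv r + 2 * erT N P0 mv (2 ^ eT a b m R)) * (Fintype.piFinset (Ce P0 mv)).card ≤
    (((Fintype.piFinset (Ce P0 mv)).filter fun T => f (∏ i, T i) ∧
      ∀ r ∈ R, Good r a b (∏ i, T i)).card : ℝ)

/-- **JOB GR-CLB.** The size of the kernel for one order in a cell.
(`t_CLB (h1 : S_TRF) (h2 : S_REA) (h3 : S_NIC) (h4 : S_LAR1) (h5 : S_PRD) (h6 : S_XIR) : S_CLB`.)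
Proof. As CLA, with `N = r`, `R = {r}`, `f` true and `Ψ T s := X ≤ #KM … s`. For nice `T` the number of the `s` with
`X ≤ #KM` is at most `Eb r / X` times the number of all `s` (LAR1 and Markov). -/
def S_CLB : Prop := ∀ (k : Type) [Field k] [Fintype k], ringChar k ≠ 2 → IsSquare (-1 : k) →
  5 ≤ Fintype.card k → ∀ (a b : k[X]), a * b * (a - b) ≠ 0 → ∀ (m : ℕ) (P0 : Fin m → k[X])
  (mv : Finset (Fin m)) (r : ℕ), IsCe (a * b * (a - b)) P0 mv → Hyn a b P0 mv {r} → ∀ X : ℝ, 0 < X →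
  (((Fintype.piFinset (Ce P0 mv)).filter fun T =>
      X ≤ (Nat.card (KD r (xi r) a b (∏ i, T i)) : ℝ)).card : ℝ) ≤
    (Eb r / X + nn P0 mv r + erT r P0 mv (2 ^ eT a b m {r})) * (Fintype.piFinset (Ce P0 mv)).card

/-- **JOB GR-CLC.** Cells for a large order `r`: the moving primes are those of degree divisible by `r`.
(`t_CLC (h1 : S_TRF) (h2 : S_REA) (h3 : S_LB2) (h4 : S_CNR) (h5 : S_PRD) (h6 : S_XIR) (h7 : S_SYP) : S_CLC`.)
Proof. No moving prime: the index type of `KD` is empty and the kernel is `0`. One moving prime `P = T i₀`: a system of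
two equations `[[d, c], [a, d]]`, `a, c ∈ F2`, singular iff `d² = a c`, so iff `d = a c ∈ {0, 1}`; and `d = own r ξ P +`
a bit, so `own r ξ P ∈ {0, 1}`: CNR. At least two: TRF with `N = r` and the types
`t i P = (L a P + ∑_(j∉mv) L (P0 j) P, L (a (a - b)) P, L (a b) P, (sy r P P (c + 1))_(c < (r-1)/2))`, `8 · 2^((r-1)/2)` of
them; by SYP (4) they determine `own r ξ P` and so everything which enters into `KM` (all indices with `r ∣ dg P0 i`
are moving), `Ψ T s := KM … s ≠ ⊥`; LB2. -/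
def S_CLC : Prop := ∀ (k : Type) [Field k] [Fintype k], ringChar k ≠ 2 → IsSquare (-1 : k) →
  5 ≤ Fintype.card k → ∀ (a b : k[X]), a * b * (a - b) ≠ 0 → ∀ (m : ℕ) (P0 : Fin m → k[X])
  (mv : Finset (Fin m)) (r : ℕ), Odd r → 1 < r → (∀ i, i ∈ mv ↔ r ∣ dg P0 i) →
  IsCe (a * b * (a - b)) P0 mv →
  (((Fintype.piFinset (Ce P0 mv)).filter fun T => ¬ Good r a b (∏ i, T i)).card : ℝ) ≤
    (if 2 ≤ mv.card then 2 * mv.card / 2 ^ (orderOf (2 : ZMod r) / 2) +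
      erT r P0 mv (8 * 2 ^ ((r - 1) / 2)) else if mv.card = 1 then 12 / 2 ^ (orderOf (2 : ZMod r) / 4)
      else 0) * (Fintype.piFinset (Ce P0 mv)).card

/-- **JOB GR-ERA.** The error term when the moving degrees are large. (`t_ERA (h : S_IRC) : S_ERA`.)
Proof. `q ≥ 5`, `g = gg ≤ N`, the exponent is at most `N m`, `1/#Irn d ≤ 2 d q^(-d)` (IRC (2)), so the bracket is at most
`4 N d_i q^(-d_i) + 4 N d_i q^(-d_j/2) ≤ 8 N d_i q^(-d_i/2)` (`d_j ≥ d_i`), and `d q^(-d/4) ≤ d 5^(-d/4) ≤ 1`, so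
it is at most `8 N q^(-d_i/4) ≤ 8 N 5^(-z/4) ≤ 8 N 2^(-z/2)` (`5 ≥ 4`). At most `m²` pairs. -/
def S_ERA : Prop := ∀ (k : Type) [Field k] [Fintype k], 5 ≤ Fintype.card k → ∀ (Δ : k[X]) (N m z : ℕ)
  (P0 : Fin m → k[X]) (mv : Finset (Fin m)), 0 < N → IsCe Δ P0 mv → (∀ i ∈ mv, z < dg P0 i) →
  ∀ τ : ℝ, 0 ≤ τ → erT N P0 mv τ ≤ m ^ 2 * Real.sqrt (τ * 2 ^ (N * m) * (8 * N) / 2 ^ (z / 2))

/-- **JOB GR-ERB.** The error term for a large order. (`t_ERB (h : S_IRC) : S_ERB`.)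
Proof. All moving degrees are multiples of `r` and strictly increasing, so `d_i ≥ r pos(i)`,
`pos(i) = #{l ∈ mv : l ≤ i}`, `d_j ≥ d_i + r` for `i < j` in `mv`, and `gg ≤ r`: the power of two is at most
`2^(r pos(i)) ≤ 2^(d_i)`. With `1/#Irn d ≤ 2 d q^(-d)`, `q ≥ 5` the radicand is at most
`8 · 2^(r/2) 2^(d_i) (4 r d_i 5^(-d_i) + 4 r d_i 5^(-(d_i + r)/2))
 = 32 r (2^(r/2) d_i (2/5)^(d_i) + (2/5)^(r/2) d_i (4/5)^(d_i/2))`. For `d ≥ r ≥ 3`: `d (2/5)^d ≤ r (2/5)^r`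
(decreasing), and `d (4/5)^(d/2) ≤ 4` for all `d`. So it is at most `32 r (r (8/25)^(r/2) + 4 (2/5)^(r/2)) ≤
32 r (r + 4) (2/5)^(r/2)` (`8/25 ≤ 2/5`), whose square root is at most `6 (r + 4) (2/5)^(r/4) ≤ 6 (r + 4) (4/5)^r`
(`(2/5) ≤ (4/5)^4 = 0.4096`). At most `m²` pairs. -/
def S_ERB : Prop := ∀ (k : Type) [Field k] [Fintype k], 5 ≤ Fintype.card k → ∀ (Δ : k[X]) (m r : ℕ)
  (P0 : Fin m → k[X]) (mv : Finset (Fin m)), Odd r → 1 < r → (∀ i, i ∈ mv ↔ r ∣ dg P0 i) →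
  IsCe Δ P0 mv → erT r P0 mv (8 * 2 ^ ((r - 1) / 2)) ≤ m ^ 2 * (6 * (r + 4) * (4 / 5) ^ r)

/-- **JOB GR-DEC.** Decomposition into cells. `μ d` says that the primes of degree `d` move.
(`t_DEC (h : S_PRD) : S_DEC`.)
Proof. For `D ∈ X` let `κ(D)` be the pair (product of the `P ∈ pr D` with `¬ μ (deg P)`, set of the degrees of the
others). `X` is the disjoint union of the fibres of `κ`. For `D ∈ X` enumerate `pr D` by `P0 : Fin m → k[X]` in such a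
way that the degrees are non-decreasing (sort; the moving degrees are different by `hX1`, so they are strictly
increasing on `mv = {i | μ (dg P0 i)}`); `IsCe` holds. The map `T ↦ ∏ T i` is a bijection from `piFinset (Ce P0 mv)`
onto the fibre of `κ(D)` in `X`: by `hX2` the products are in `X` and have the same `κ`; conversely if
`κ(D') = κ(D)`, `D' ∈ X`, then the moving primes of `D'` have different degrees (`hX1`), the same as those of `D`, so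
`D' = ∏ T i` for exactly one `T`. So `∑_(D ∈ fibre) φ D = ∑_T φ (∏ T i) ≤ ∑_T ψ (∏ T i)`; sum over the fibres. -/
def S_DEC : Prop := ∀ (k : Type) [Field k] [Fintype k] (Δ : k[X]), Δ ≠ 0 → ∀ (μ : ℕ → Prop) (n : ℕ)
  (X : Finset k[X]), (∀ d, μ d → Δ.natDegree < d) → X ⊆ Dn Δ n →
  (∀ D ∈ X, ∀ P ∈ pr D, ∀ P' ∈ pr D, μ P.natDegree → P.natDegree = P'.natDegree → P = P') →
  (∀ (m : ℕ) (P0 : Fin m → k[X]), IsCe Δ P0 (univ.filter fun i => μ (dg P0 i)) → ∏ i, P0 i ∈ X →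
    ∀ T ∈ Fintype.piFinset (Ce P0 (univ.filter fun i => μ (dg P0 i))), ∏ i, T i ∈ X) →
  ∀ φ ψ : k[X] → ℝ,
  (∀ (m : ℕ) (P0 : Fin m → k[X]), IsCe Δ P0 (univ.filter fun i => μ (dg P0 i)) → ∏ i, P0 i ∈ X →
    ∑ T ∈ Fintype.piFinset (Ce P0 (univ.filter fun i => μ (dg P0 i))), φ (∏ i, T i) ≤
      ∑ T ∈ Fintype.piFinset (Ce P0 (univ.filter fun i => μ (dg P0 i))), ψ (∏ i, T i)) →
  ∑ D ∈ X, φ D ≤ ∑ D ∈ X, ψ D

/-! ### typical twists -/

/-- the parameter: `t^10 ≤ log n < (t + 1)^10` -/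
noncomputable def tn (n : ℕ) : ℕ := ⌊Real.log n ^ (1 / 10 : ℝ)⌋₊

section typ

variable {k : Type} [Field k] [Fintype k]

/-- the typical twists, for the orders `r ≤ t^8` -/
noncomputable def XA (Δ : k[X]) (n : ℕ) : Finset k[X] := (Dn Δ n).filter fun D =>
  (pr D).card ≤ tn n ^ 12 ∧
  100 * ((pr D).filter fun P => P.natDegree ≤ tn n ^ 40).card ≤ tn n ∧
  (∀ P ∈ pr D, ∀ P' ∈ pr D, tn n ^ 40 < P.natDegree → P.natDegree = P'.natDegree → P = P') ∧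
  ∀ r : ℕ, Odd r → 1 < r → r ≤ tn n ^ 8 →
    tn n ^ 2 ≤ 8 * ((pr D).filter fun P => tn n ^ 40 < P.natDegree ∧ r ∣ P.natDegree).card

/-- the typical twists, for the orders `r > t^8` -/
noncomputable def XB (Δ : k[X]) (n : ℕ) : Finset k[X] := (Dn Δ n).filter fun D =>
  (pr D).card ≤ tn n ^ 12 ∧
  (∀ P ∈ pr D, ∀ P' ∈ pr D, tn n ^ 8 < P.natDegree → P.natDegree = P'.natDegree → P = P')

end typ

/-- **JOB GR-TNP.** The parameter. Proof. `t = ⌊(log n)^(1/10)⌋`. -/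
def S_TNP : Prop := (Filter.Tendsto tn Filter.atTop Filter.atTop) ∧
  ∀ n : ℕ, 1 ≤ n → (tn n : ℝ) ^ 10 ≤ Real.log n ∧ Real.log n < ((tn n : ℝ) + 1) ^ 10

/-- **JOB GR-AVP.** Averages over the twists. (`t_AVP (h1 : S_IRC) (h2 : S_PRD) : S_AVP`.)
Proof. (1) `Dn Δ n` is contained in the monic polynomials of degree `n`. (2) the number of the `D ∈ Dn Δ n`
divisible by a given `P` of degree `d ≤ n` is at most `q^(n-d)`, and `#Irn k d ≤ q^d/d`: so for a set `W` of degrees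
`∑_D #{P ∈ pr D : deg P ∈ W} ≤ ∑_(d ∈ W, 1 ≤ d ≤ n) q^n/d`. (3) pairs `P ≠ P'` in `pr D` of the same degree `d`:
`P P' ∣ D`, at most `q^(n - 2d)` such `D` for given `P`, `P'`: in total `≤ ∑_(d>z) (q^d/d)² q^(n-2d) ≤
q^n ∑_(d>z) 1/d² ≤ q^n/z`. -/
def S_AVP : Prop := ∀ (k : Type) [Field k] [Fintype k], 5 ≤ Fintype.card k → ∀ (Δ : k[X]), Δ ≠ 0 →
  ∀ n : ℕ, 1 ≤ n → ((Dn Δ n).card : ℝ) ≤ (Fintype.card k : ℝ) ^ n ∧
  (∀ W : ℕ → Prop, ∑ D ∈ Dn Δ n, (((pr D).filter fun P => W P.natDegree).card : ℝ) ≤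
    (Fintype.card k : ℝ) ^ n * ∑ d ∈ (Icc 1 n).filter W, 1 / (d : ℝ)) ∧
  (∀ z : ℕ, 1 ≤ z → (((Dn Δ n).filter fun D => ∃ P ∈ pr D, ∃ P' ∈ pr D, z < P.natDegree ∧
    P.natDegree = P'.natDegree ∧ P ≠ P').card : ℝ) ≤ (Fintype.card k : ℝ) ^ n / z)

/-- **JOB GR-HTB.** Sums of multiplicative functions (Hall, Tenenbaum). (`t_HTB (h1 : S_IRC) (h2 : S_PRD) : S_HTB`.)
Proof. `G D = ∏_(P∈pr D) g P`, `γ_j = q^(-j) ∑_(D ∈ Dn Δ j) G D` (`γ_0 = 1`). For `D ∈ Dn Δ n`: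
`n = ∑_(P∈pr D) deg P`, so `n ∑_D G D = ∑_D ∑_(P∣D) deg P g(P) G(D/P) ≤ ∑_(d=1)^n ∑_(P ∈ Irn k d) d ∑_(D' ∈ Dn Δ (n-d)) G D'
≤ ∑_d q^d q^(n-d) γ_(n-d)` (`g ≤ 1`, `d #Irn k d ≤ q^d`), that is `n γ_n ≤ ∑_(j<n) γ_j`. And
`∑_(j<n) γ_j ≤ ∏_(P monic irreducible, deg P ≤ n) (1 + g(P) q^(-deg P))` (expand the product: every squarefree `D` of
degree `< n` occurs), `≤ exp (∑ g(P) q^(-deg P))`. -/
def S_HTB : Prop := ∀ (k : Type) [Field k] [Fintype k], 5 ≤ Fintype.card k → ∀ (Δ : k[X]), Δ ≠ 0 →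
  ∀ g : k[X] → ℝ, (∀ P, 0 ≤ g P ∧ g P ≤ 1) → ∀ n : ℕ, 1 ≤ n →
  ∑ D ∈ Dn Δ n, ∏ P ∈ pr D, g P ≤ (Fintype.card k : ℝ) ^ n / n *
    Real.exp (∑ d ∈ Icc 1 n, ∑ P ∈ Irn k d, g P / (Fintype.card k : ℝ) ^ d)

/-- **JOB GR-TYA.** Almost all twists are typical (A).
(`t_TYA (h1 : S_TNP) (h2 : S_AVP) (h3 : S_HTB) (h4 : S_IRC) : S_TYA`.)
Proof. `t = tn n`, `q^n` = the bound for `#Dn`. `#pr D > t^12`: Markov with AVP (2) (`W` true): the mean is at most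
`1 + log n ≤ 1 + (t+1)^10`. More than `t/100` primes of degree `≤ t^40`: Markov, the mean is at most `1 + 40 log t`. Equal
degrees `> t^40`: AVP (3). For an odd `r`, `1 < r ≤ t^8`: HTB with `g(P) = 1/2` if `t^40 < deg P ≤ n`, `r ∣ deg P`, and
`g = 1` otherwise: `∑_(d≤n) #Irn k d q^(-d) ≤ 1 + log n`, and
`∑_(t^40 < d ≤ n, r ∣ d) #Irn k d q^(-d) ≥ ∑ (1/d) (1 - 2 q^(-d/2)) ≥ 0.99 ∑_(t^40 < d ≤ n, r∣d) 1/d ≥
0.99 ((1/r) log (n/t^40) - 2/t^40 ...) ≥ 0.9 t^10/r ≥ 0.9 t²` for large `n` (`log n ≥ t^10`). So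
`∑_D 2^(-#(D)) ≤ q^n/n · exp (1 + log n - 0.45 t²) = q^n exp (1 - 0.45 t²)`, `#(D)` = the number of these primes, and the
number of the `D` with `8 #(D) < t²` is at most `2^(t²/8) q^n exp (1 - 0.45 t²) ≤ q^n exp (1 - 0.36 t²)`; there are at
most `t^8` values of `r`. -/
def S_TYA : Prop := ∀ (k : Type) [Field k] [Fintype k], 5 ≤ Fintype.card k → ∀ (Δ : k[X]), Δ ≠ 0 →
  ∀ ε : ℝ, 0 < ε → ∀ᶠ n : ℕ in Filter.atTop,
    ((Dn Δ n \ XA Δ n).card : ℝ) ≤ ε * (Fintype.card k : ℝ) ^ n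

/-- **JOB GR-TYB.** Almost all twists are typical (B). (`t_TYB (h1 : S_TNP) (h2 : S_AVP) : S_TYB`.)
Proof. As in TYA. -/
def S_TYB : Prop := ∀ (k : Type) [Field k] [Fintype k], 5 ≤ Fintype.card k → ∀ (Δ : k[X]), Δ ≠ 0 →
  ∀ ε : ℝ, 0 < ε → ∀ᶠ n : ℕ in Filter.atTop,
    ((Dn Δ n \ XB Δ n).card : ℝ) ≤ ε * (Fintype.card k : ℝ) ^ n

end Pool.Agent.Q269.GR
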