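import Pool.Agent.Q269.GR.Def
import Pool.Agent.Y164.PS.BadP

/-!
# Project GR: lemma jobs, arithmetic in the constant extensions of odd degree

`k ⊆ k'` finite fields, `q = Fintype.card k`, `e = [k' : k]` (odd), `K = k(t)`, `E = k'(t)`;
`a' = a.map (algebraMap k k')` etc. For a prime `P` of `k[t]` of degree `d` and `g = gcd (e, d)` the primes of
`k'[t]` over `P` are the `g` conjugates `ph^c (fp j P)` of `fp j P`, the one with the root `rt P`
(for an embedding `j : k' → Om k`).
-/

set_option autoImplicit false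
set_option linter.all false

open scoped Classical
open Finset Polynomial

namespace Pool.Agent.Q269.GR

open Pool.Agent.Y164.PS (L Hyp)

section defs

variable (k : Type) {k' : Type} [Field k] [Fintype k] [Field k'] [Algebra k k']

/-- the homomorphism `x ↦ x ^ q` of an extension `k'` of `k`, `q` the cardinality of `k` -/
noncomputable def fr : k' →+* k' := (FiniteField.frobeniusAlgHom k k').toRingHom

/-- its action on polynomials -/
noncomputable def ph (p : k'[X]) : k'[X] := p.map (fr k)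

/-- the Frobenius automorphism of the field `E` of rational functions over `k'` -/
structure IsSg (k k' : Type) [Field k] [Fintype k] [Field k'] [Algebra k k'] {E : Type} [Field E]
    [Algebra k'[X] E] (σ : E ≃+* E) : Prop where
  eq : ∀ p : k'[X], σ (algebraMap k'[X] E p) = algebraMap k'[X] E (ph k p)

end defs

/-- the parity of the exponent of the prime `P` in `u` -/
noncomputable def pa {k : Type} [Field k] (K : Type) [Field K] [Algebra k[X] K] [IsFractionRing k[X] K]
    (P : k[X]) (u : K) : F2 :=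
  ((Multiset.count P (UniqueFactorizationMonoid.normalizedFactors
    (IsFractionRing.num k[X] u * (IsFractionRing.den k[X] u : k[X])))) : F2)

/-- the vector attached to a pair `(u0, u1)` and a prime `T` of `k'[t]` -/
noncomputable def wv (k : Type) {k' E F : Type} [Field k] [Fintype k] [Field k'] [Algebra k k'] [Field E]
    [Algebra k'[X] E] [IsFractionRing k'[X] E] [Field F] [Algebra F2 F] (ξ : F) (e : ℕ) (T : k'[X])
    (u0 u1 : E) : F × F :=
  ∑ c ∈ range e, (ξ⁻¹) ^ c • ((cf (pa E ((ph k)^[c] T) u0), cf (pa E ((ph k)^[c] T) u1)) : F × F)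

/-- the prime factor over `k'` of `P` which has the root `rt P` -/
noncomputable def fp {k k' : Type} [Field k] [Fintype k] [Field k'] [Algebra k k'] (j : k' →ₐ[k] Om k)
    (P : k[X]) : k'[X] :=
  if h : ∃ Q : k'[X], Q.Monic ∧ Irreducible Q ∧ Q.eval₂ (j : k' →+* Om k) (rt P) = 0 then h.choose else 0

/-- the image in the function field over `k'` of a polynomial over `k` -/
noncomputable def mm {k : Type} (k' : Type) [Field k] [Field k'] [Algebra k k'] (E : Type) [Field E]
    [Algebra k'[X] E] (A : k[X]) : E := algebraMap k'[X] E (A.map (algebraMap k k'))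

/-! ### one field -/

/-- **JOB GR-PAR.** The parities.
Proof. `u = num/den`, so `u den² = num den`. (1): `u c² = f` gives `num den · c² = f den²` in `K`; write `c = c₁/c₂`:
`num den c₁² = f den² c₂²` in `k[X]`, count the factor `P`. (2) by (1). (3) the valuation at `v` of `f` is
`exp (-count)`; see `Pool/Agent/Y164/PS/El.lean` (`val_el`) or `Pool/Agent/TH115` (`intValuation`). (4) all the
exponents of the normalized factors of `num den` are even, so it is a constant times a square. -/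
def S_PAR : Prop := ∀ (k K : Type) [Field k] [Field K] [Algebra k[X] K] [IsFractionRing k[X] K],
  (∀ (P f : k[X]) (u c : K), c ≠ 0 → f ≠ 0 → u * c ^ 2 = algebraMap k[X] K f →
    pa K P u = (Multiset.count P (UniqueFactorizationMonoid.normalizedFactors f) : F2)) ∧
  (∀ (P : k[X]) (u u' : K), u ≠ 0 → u' ≠ 0 → pa K P (u * u') = pa K P u + pa K P u') ∧
  (∀ (v : IsDedekindDomain.HeightOneSpectrum k[X]) (P : k[X]) (u : K), P.Monic → Irreducible P →
    v.asIdeal = Ideal.span {P} → u ≠ 0 → (pa K P u = 0 ↔ IsSquare (v.valuation K u))) ∧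
  (∀ u : K, u ≠ 0 → (∀ P : k[X], P.Monic → Irreducible P → pa K P u = 0) →
    ∃ (c : k) (y : K), c ≠ 0 ∧ y ≠ 0 ∧ u = algebraMap k[X] K (C c) * y ^ 2)

/-! ### the extension -/

/-- **JOB GR-SIG.** The Frobenius automorphism of the function field.
Proof. `fr k` is bijective (`k'` finite), so `p ↦ ph k p` is an automorphism of `k'[X]`, which extends to the fraction
field (`IsFractionRing.ringEquivOfRingEquiv`, `IsLocalization.map`). `x^(q^e) = x` in `k'`. `em`: from the injective
homomorphism `k[X] → k'[X]`. Fixed elements: `num` and `den` (normalised: `den` monic) of a fixed element are fixed, and a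
polynomial over `k'` fixed by `ph k` has its coefficients in `k` (`x^q = x`). -/
def S_SIG : Prop := ∀ (k k' K E : Type) [Field k] [Fintype k] [Field k'] [Finite k'] [Algebra k k']
  [Field K] [Algebra k[X] K] [IsFractionRing k[X] K] [Field E] [Algebra k'[X] E]
  [IsFractionRing k'[X] E],
  ∃ (σ : E ≃+* E) (em : K →+* E), IsSg k k' σ ∧ (∀ p : k[X], em (algebraMap k[X] K p) = mm k' E p) ∧
    (∀ x, σ^[Module.finrank k k'] x = x) ∧ ∀ x, σ x = x ↔ x ∈ Set.range em

/-- **JOB GR-PAS.** The parities and the Frobenius automorphism. (`t_PAS (h : S_PAR) : S_PAS`.)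
Proof. `ph k` is an automorphism of the ring `k'[X]` which maps monic polynomials to monic ones, so it respects
`normalizedFactors` and `count`; PAR (1). Second part: `x^(q^e) = x` in `k'`. Third: the symbol is `1` iff not a
square modulo the prime and not divisible (`L_eq_zero_iff`, `L_of_not_coprime` in `Pool/Agent/Y164/PS/Sym.lean`),
transport by the automorphism. -/
def S_PAS : Prop := ∀ (k k' E : Type) [Field k] [Fintype k] [Field k'] [Fintype k'] [Algebra k k']
  [Field E] [Algebra k'[X] E] [IsFractionRing k'[X] E] (σ : E ≃+* E), IsSg k k' σ →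
  (∀ (P : k'[X]) (u : E), u ≠ 0 → pa E (ph k P) (σ u) = pa E P u) ∧
  (∀ P : k'[X], (ph k)^[Module.finrank k k'] P = P) ∧
  (ringChar k ≠ 2 → ∀ f P : k'[X], P.Monic → Irreducible P → L (ph k f) (ph k P) = L f P) ∧
  (∀ P : k[X], ph k (P.map (algebraMap k k')) = P.map (algebraMap k k')) ∧
  (∀ P : k'[X], P.Monic → Irreducible P → (ph k P).Monic ∧ Irreducible (ph k P) ∧
    (ph k P).natDegree = P.natDegree)

/-- **JOB GR-HYM.** The hypotheses over `k'`.
Proof. `Separable` (finite fields are perfect) is preserved by extensions, so `D'` is squarefree; degrees, coprimality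
are preserved. -/
def S_HYM : Prop := ∀ (k k' : Type) [Field k] [Fintype k] [Field k'] [Fintype k'] [Algebra k k']
  (a b : k[X]) (N : ℕ), Hyp a b N →
  Hyp (a.map (algebraMap k k')) (b.map (algebraMap k k')) N ∧ ∀ (n : ℕ), ∀ D ∈ Dn (a * b * (a - b)) n,
    D.map (algebraMap k k') ∈ Dn (a.map (algebraMap k k') * b.map (algebraMap k k') *
      (a.map (algebraMap k k') - b.map (algebraMap k k'))) n

/-- **JOB GR-FCT.** The prime factors over `k'` of a prime of `k[t]`. (`t_FCT (h1 : S_RTP) (h2 : S_FLD) : S_FCT`,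
`S_RTP`, `S_FLD` in `StB.lean`, import it.)
Proof. `θ = rt P`, `e = [k' : k]`, `d = deg P`, `g = gcd (e, d)`. The image of `j` is the field `K_e` of the `x` with
`x^(q^e) = x`. By RTP the roots of `P` in `Om k` are the `d` different elements `θ^(q^l)`, `l` modulo `d`. The orbits of
`x ↦ x^(q^e)` on them are the classes of `l` modulo `g`, so the product of `X - θ^(q^l)` over a class has coefficients in
`K_e`, comes from a monic polynomial over `k'`, and this is irreducible (its roots are conjugate over `K_e`). The one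
with `l ≡ 0` has the root `θ`: it is `fp j P` (a monic irreducible polynomial over `k'` with the root `θ` is unique).
`ph k` raises the coefficients to the power `q`: `(ph k Q).map j` has the roots `θ'^q`. -/
def S_FCT : Prop := ∀ (k k' : Type) [Field k] [Fintype k] [Field k'] [Fintype k'] [Algebra k k']
  (j : k' →ₐ[k] Om k) (P : k[X]), P.Monic → Irreducible P →
  (fp j P).Monic ∧ Irreducible (fp j P) ∧ (fp j P).eval₂ (j : k' →+* Om k) (rt P) = 0 ∧
  (∀ c : ℕ, ((ph k)^[c] (fp j P)).map (j : k' →+* Om k) =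
    ∏ l ∈ (range P.natDegree).filter (fun l => l % Nat.gcd (Module.finrank k k') P.natDegree =
      c % Nat.gcd (Module.finrank k k') P.natDegree), (X - C (rt P ^ (Fintype.card k ^ l)))) ∧
  (∀ c : ℕ, ((ph k)^[c] (fp j P)).Monic ∧ Irreducible ((ph k)^[c] (fp j P))) ∧
  (∀ c c' : ℕ, (ph k)^[c] (fp j P) = (ph k)^[c'] (fp j P) ↔
    c ≡ c' [MOD Nat.gcd (Module.finrank k k') P.natDegree]) ∧
  P.map (algebraMap k k') =
    ∏ c ∈ range (Nat.gcd (Module.finrank k k') P.natDegree), (ph k)^[c] (fp j P)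

/-- **JOB GR-FCD.** The prime factors over `k'` of a squarefree polynomial. (`t_FCD (h : S_FCT) : S_FCD`.)
Proof. FCT; different primes `P` have no common root, so no common factor over `k'`. If `gcd (e, deg Q) = 1` then
`Q' = fp j Q` is irreducible over `k'` (for the last part take some `j`, `IsAlgClosed.lift`). -/
def S_FCD : Prop := ∀ (k k' : Type) [Field k] [Fintype k] [Field k'] [Fintype k'] [Algebra k k']
  (j : k' →ₐ[k] Om k),
  (∀ D : k[X], D ≠ 0 → pr (D.map (algebraMap k k')) = (pr D).biUnion fun P =>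
    (range (Nat.gcd (Module.finrank k k') P.natDegree)).image fun c => (ph k)^[c] (fp j P)) ∧
  (∀ P P' : k[X], P.Monic → Irreducible P → P'.Monic → Irreducible P' → P ≠ P' → ∀ c c' : ℕ,
    (ph k)^[c] (fp j P) ≠ (ph k)^[c'] (fp j P')) ∧
  (∀ Q : k[X], Q.Monic → Irreducible Q → Nat.Coprime (Module.finrank k k') Q.natDegree →
    Irreducible (Q.map (algebraMap k k')) ∧ fp j Q = Q.map (algebraMap k k'))

/-- **JOB GR-SYL.** The symbols over `k'` in terms of the algebraic closure.
(`t_SYL (h1 : S_FLD) (h2 : S_RTP) (h3 : S_SGD) (h4 : S_FCT) : S_SYL`.)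
Proof. `θ = rt P`, `Q = fp j P`. `k'[X]/(Q)` is isomorphic by `X ↦ θ` (and `j`) to the subfield generated by `K_e`
and `θ`, which is `K_m`, `m = lcm (e, d)` (it is contained in it, and its degree over `k` is a multiple of `e` and `d`). So
`f` is a square modulo `Q` iff `f(θ)` is a square in `K_m` (`L_eq_zero_iff`; if `Q ∣ f` both sides are `0`,
`L_of_not_coprime`). -/
def S_SYL : Prop := ∀ (k k' : Type) [Field k] [Fintype k] [Field k'] [Fintype k'] [Algebra k k']
  (j : k' →ₐ[k] Om k), ringChar k ≠ 2 → ∀ P : k[X], P.Monic → Irreducible P → ∀ f : k'[X],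
  L f (fp j P) = sgd k (Nat.lcm (Module.finrank k k') P.natDegree)
    (f.eval₂ (j : k' →+* Om k) (rt P))

/-- **JOB GR-SYR.** The sums of the symbols over the conjugates.
(`t_SYR (h1 : S_SYL) (h2 : S_FCT) (h3 : S_SGD) (h4 : S_RTP) : S_SYR`.)
Proof. `e = [k' : k]`, `d = deg P`, `d' = deg P'`, `g = gcd (e, d)`, `m = lcm (e, d')`, `θ = rt P`, `θ' = rt P'`. (1) By SYL
and FCT `L (ph^c (fp j P)) (fp j P') = sgd_m (y_c)`, `y_c = ∏_(l<d, l≡c mod g) (θ' - θ^(q^l)) ∈ K_m`, not `0`. `r ∣ g`. Group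
the `c < g` by `c₀ = c mod r`: by SGD (1) `∑_(c≡c₀) sgd_m (y_c) = sgd_m (Y)`, `Y = ∏_(l<d, l≡c₀ mod r) (θ' - θ^(q^l))`. As
`r ∣ d` and `r ∣ d'`, `Y^(q^(d')) = Y` (`l ↦ l + d'` permutes the classes modulo `d` which are `≡ c₀` modulo `r`), so
`Y ∈ K_(d')`, and `m/d' = e/gcd (e, d')` is odd, so `sgd_m (Y) = sgd_(d') (Y) = sy r P P' c₀` (SGD (3)); `ξ^c = ξ^(c₀)`.
(2) In the same way with `P' = P`, `0 < c < g`: for `c ≡ 0` modulo `r` the factor `1 + ξ^c` is `0`; for `c₀ ≠ 0` the
product `Y` does not contain the factor with `l = 0` and is not `0`. The term `c = 0` of `own` is `0`.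
(3) `f(θ) ∈ K_d`, `lcm (e, d)/d` odd, and `L f P = sgd_d (f(θ))` (SYL with `k' = k`, or the same argument). -/
def S_SYR : Prop := ∀ (k k' : Type) [Field k] [Fintype k] [Field k'] [Fintype k'] [Algebra k k']
  (j : k' →ₐ[k] Om k), ringChar k ≠ 2 → Odd (Module.finrank k k') →
  ∀ P : k[X], P.Monic → Irreducible P →
  (∀ (F : Type) [Field F] [Algebra F2 F] (ξ : F) (r : ℕ), 0 < r → ξ ^ r = 1 →
    r ∣ Module.finrank k k' → r ∣ P.natDegree →
    (∀ P' : k[X], P'.Monic → Irreducible P' → P ≠ P' → r ∣ P'.natDegree →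
      ∑ c ∈ range (Nat.gcd (Module.finrank k k') P.natDegree),
        cf (L ((ph k)^[c] (fp j P)) (fp j P')) * ξ ^ c = hv r ξ P P') ∧
    ∑ c ∈ range (Nat.gcd (Module.finrank k k') P.natDegree),
      (if c = 0 then 0 else cf (L ((ph k)^[c] (fp j P)) (fp j P)) * (1 + ξ ^ c)) = own r ξ P) ∧
  (∀ f : k[X], L (f.map (algebraMap k k')) (fp j P) = L f P)

/-- the setting -/
structure Ext (k k' : Type) [Field k] [Fintype k] [Field k'] [Fintype k'] [Algebra k k'] (a b : k[X]) : Prop
    where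
  odd : Odd (Module.finrank k k')
  cop : ∀ Q : k[X], Q.Monic → Irreducible Q → Q ∣ a * b * (a - b) →
    Nat.Coprime (Module.finrank k k') Q.natDegree

/-- **JOB GR-VAN.** A polynomial in the Frobenius which kills the pairs with vector `0`.
(`t_VAN (h1 : S_PAR) (h2 : S_PAS) (h3 : S_FCD) (h4 : S_FCT) : S_VAN`.)
Proof. `e = [k' : k]` odd, `m` = the minimal polynomial of `ξ⁻¹` over `F2` (it divides `X^e - 1`), `X^e - 1 = m h`,
`p = (X - 1)² h`; `X^e - 1` is separable over `F2`, so `h(ξ⁻¹) ≠ 0`, `p(ξ⁻¹) ≠ 0` (if `ξ` is not integral over `F2`... it is,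
as `ξ^e = 1`). For `u` and a prime `T` of `k'[t]` over `P ∈ pr D` put `s_c = pa (ph^c T) u`, `c` modulo `e`,
`S = ∑_(c<e) s_c X^c`. `S(ξ⁻¹) = 0`: for `T = fp j P` and `r ∣ deg P` by hypothesis; if `r ∤ deg P` since `s` is periodic
with period `g = gcd (e, deg P)`, `r ∤ g`; for a conjugate `T = ph^i (fp j P)` by shifting. So `m ∣ S` and `X^e - 1 ∣ h S`.
The parity at `ph^c T` of `h(σ) u := ∏_i (σ^i u)^(h_i)` is `∑_i h_i s_(c-i)` (PAS: `pa (ph^c T) (σ^i u) = pa (ph^(c-i) T) u`),
the coefficient of `X^c` of `h S` modulo `X^e - 1`, so `0`. At a prime `Q' ∣ Δ'` (`ph Q' = Q'`): `pa Q' (σ v) = pa Q' v`, so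
`pa Q' ((σ - 1) v) = 0`; at all the other primes the parity of `u` and its conjugates is `0`. So `v = (σ - 1) h(σ) u` has
all its parities `0`, `v = c y²` (PAR (4)), and `(σ - 1) v = c^(q-1) (…)²` is a square, `q - 1` is even. Up to
squares `∏_i (σ^i u)^(p_i)` (with the `p_i ∈ {0, 1}`) is `(σ - 1)² h(σ) u`: multiplication of polynomials over
`F2` corresponds to composition modulo squares (prove: for `f ∈ F2[X]` the map `u ↦ ∏ (σ^i u)^(f_i)` from `Eˣ` to
`Eˣ/squares` defines an action of `F2[X]`). -/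
def S_VAN : Prop := ∀ (k k' E : Type) [Field k] [Fintype k] [Field k'] [Fintype k'] [Algebra k k']
  [Field E] [Algebra k'[X] E] [IsFractionRing k'[X] E] (j : k' →ₐ[k] Om k) (σ : E ≃+* E), IsSg k k' σ →
  ringChar k ≠ 2 → Odd (Module.finrank k k') → ∀ (F : Type) [Field F] [Algebra F2 F] (ξ : F) (r : ℕ),
  orderOf ξ = r → 1 < r → r ∣ Module.finrank k k' →
  ∃ p : F2[X], aeval ξ⁻¹ p ≠ 0 ∧ ∀ (a b : k[X]), a * b * (a - b) ≠ 0 → Ext k k' a b →
    ∀ (n : ℕ), ∀ D ∈ Dn (a * b * (a - b)) n, ∀ u : E, u ≠ 0 →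
    (∀ T : k'[X], T.Monic → Irreducible T → ¬ T ∣ (a * b * (a - b) * D).map (algebraMap k k') →
      pa E T u = 0) →
    (∀ P ∈ pr D, r ∣ P.natDegree →
      ∑ c ∈ range (Module.finrank k k'), (ξ⁻¹) ^ c * cf (pa E ((ph k)^[c] (fp j P)) u) = 0) →
    IsSquare (∏ i ∈ range (p.natDegree + 1), (σ^[i] u) ^ (p.coeff i).val)

/-! ### the ranks -/

/-- **JOB GR-ALG.** A bound for the rank of the part of order `r`.
Proof. `A = ℤ[X]/(Φ_r)` (`AdjoinRoot (cyclotomic r ℤ)`), a domain, free of rank `φ(r)` over `ℤ`; `𝔭` = the kernel of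
`A → F`, `X ↦ ξ` (`Φ_r(ξ) = 0` as `orderOf ξ = r` and `r` is odd, not divisible by the characteristic; it contains `2`;
the image of `A` is `F2[ξ]`, a field since `ξ` is integral). Put `S̄ = S'/torsion`, `S' = {x ∈ M : Φ_r(f) x is torsion}`
(we may replace `S` by `S' ⊇ S`), which is stable under `f`; `S̄` is a finitely generated `A`-module (`X` acts as `f`),
torsion-free over `ℤ`. If `x ∈ S'`, `W x = 0`, then `p(f) x = 2y`; `Φ_r(f) (2y)` is torsion, so `y ∈ S'`; so
`p(X) x̄ = 2 ȳ ∈ 𝔭 S̄`, `p(X) ∉ 𝔭`, and `𝔭` is maximal, so `x̄ ∈ 𝔭 S̄`. `A → F` is surjective: `F2[ξ] = F`, since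
`|F| = 2^f`, `f` the order of `2` modulo `r`, and `ξ` has order `r` (`IsRt`). `W(S')` is an `F`-subspace of `V`
(`W (f x) = ξ W x`, `S'` is stable under `f`); choose `x_1, …, x_l ∈ S'`, `l ≤ dim_F V`, such that the `W x_i` are a basis of
it. Then every `x ∈ S'`
is `∑ a_i x_i + z` with `a_i ∈ ℤ[f]`, `W z = 0`, so `S̄ = N + 𝔭 S̄`, `N = ∑ A x̄_i`. Nakayama
(`Submodule.exists_sub_one_mem_and_smul_eq_zero_of_fg_of_le_smul` for `S̄/N`): there is `t ∈ 1 + 𝔭`, so `t ≠ 0`, with
`t S̄ ⊆ N`; a nonzero multiple of `t` is an integer, so the rank of `S̄` over `ℤ` is that of `N`, at most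
`l φ(r)` (a quotient of `A^l`). -/
def S_ALG : Prop := ∀ (M V F : Type) [AddCommGroup M] [Field F] [Fintype F] [Algebra F2 F]
  [AddCommGroup V] [Module F V] [Module.Finite F V] (ξ : F) (r : ℕ), IsRt r ξ → AddGroup.FG M →
  ∀ (f : Module.End ℤ M) (W : M →+ V), (∀ x, W (f x) = ξ • W x) →
  (∃ p : ℤ[X], aeval ξ (p.map (Int.castRingHom F2)) ≠ 0 ∧ ∀ x, W x = 0 → ∃ y, aeval f p x = y + y) →
  ∀ S : Submodule ℤ M, (∀ x ∈ S, IsOfFinAddOrder (aeval f (cyclotomic r ℤ) x)) →
  Module.finrank ℤ S ≤ Nat.totient r * Module.finrank F V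

/-- **JOB GR-RKS.** The rank is the sum of the ranks of the parts.
Proof. `S_r = {x : Φ_r(f) x is torsion}` is a submodule, `B r ≥ rank S_r` by hypothesis. `X^e - 1 = ∏_(r∣e) Φ_r`
(`prod_cyclotomic_eq_X_pow_sub_one`), pairwise coprime over `ℚ`, so with `h_r = ∏_(r'∣e, r'≠r) Φ_(r')` there are
`g_r ∈ ℤ[X]` and an integer `m ≠ 0` with `∑_r g_r h_r = m`. For `x ∈ M`: `m x = ∑_r g_r(f) h_r(f) x`, and
`Φ_r(f) g_r(f) h_r(f) x = g_r(f) (f^e - 1) x = 0`, so `m M ⊆ ∑_r S_r`, and the rank of `M` (= the rank of `m M`) is at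
most `∑ rank S_r`. -/
def S_RKS : Prop := ∀ (M : Type) [AddCommGroup M], AddGroup.FG M → ∀ (f : Module.End ℤ M) (e : ℕ), 0 < e →
  f ^ e = 1 → ∀ B : ℕ → ℕ, (∀ r ∈ e.divisors, ∀ S : Submodule ℤ M,
    (∀ x ∈ S, IsOfFinAddOrder (aeval f (cyclotomic r ℤ) x)) → Module.finrank ℤ S ≤ B r) →
  Module.finrank ℤ M ≤ ∑ r ∈ e.divisors, B r

/-- **JOB GR-FIX.** The part of order one.
Proof. `Φ_1 = X - 1`. If `m (f x - x) = 0`, `m ≠ 0` (a common `m` for all `x ∈ S`: the exponent of the torsion subgroup of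
`M`), then `m x` is fixed by `f`, so `m S ⊆ g(M₀)`. -/
def S_FIX : Prop := ∀ (M M₀ : Type) [AddCommGroup M] [AddCommGroup M₀], AddGroup.FG M →
  ∀ (f : Module.End ℤ M) (g : M₀ →ₗ[ℤ] M), Function.Injective g → (∀ x, f x = x ↔ x ∈ Set.range g) →
  Module.finrank ℤ M₀ ≤ Module.finrank ℤ M ∧
  ∀ S : Submodule ℤ M, (∀ x ∈ S, IsOfFinAddOrder (aeval f (cyclotomic 1 ℤ) x)) →
  Module.finrank ℤ S ≤ Module.finrank ℤ M₀

end Pool.Agent.Q269.GR
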