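import Pool.Agent.Q269.GR.StD

/-!
# Project GR: the monic squarefree polynomials of degree `n` coprime to `Δ`
-/

set_option autoImplicit false
set_option linter.all false

open scoped Classical
open Finset Polynomial

namespace Pool.Agent.Q269.GR

variable {k : Type} [Field k] [Fintype k]

theorem mem_Dn' {Δ D : k[X]} {n : ℕ} : D ∈ Dn Δ n ↔
    (D.Monic ∧ D.natDegree = n) ∧ Squarefree D ∧ IsCoprime D Δ := by
  rw [Dn, mem_filter, Pool.Agent.H341R2.Sharp.mem_Mon]

end Pool.Agent.Q269.GR
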