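import Pool.Agent.Q26.GR.XIR
import Pool.Agent.Q190.GR.CH1
import Pool.Agent.Q190.GR.CHN
import Pool.Agent.Q26.GR.FLD
import Pool.Agent.Q26.GR.SGD
import Pool.Agent.Q111.GR.DUA
import Pool.Agent.Q16.GR.SYP
import Pool.Agent.Q210.GR.Irc
import Pool.Agent.Q24.GR.OPB
import Pool.Agent.Q16.GR.INJ
import Pool.Agent.Q162.GR.PRD
import Pool.Agent.Q162.GR.TRF
import Pool.Agent.Q162.GR.ERA
import Pool.Agent.Q162.GR.ERB
import Pool.Agent.Q58.GR.DEC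
import Pool.Agent.Q162.GR.TNP
import Pool.Agent.Q162.GR.AVP
import Pool.Agent.Q58.GR.HTB
import Pool.Agent.Q58.GR.TYA
import Pool.Agent.Q162.GR.TYB
import Pool.Agent.Q149.GR.SMD
import Pool.Agent.Q102.GR.PAR
import Pool.Agent.Q16.GR.Ph
import Pool.Agent.Q16.GR.FCT
import Pool.Agent.Q16.GR.SYL

/-!
# Assembly of the lemmas of project GR over the constants

The module and the author of the proof of each statement can be read off from this file.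
-/

set_option autoImplicit false

namespace Pool.Agent.Q269.GR.Asm

open Pool.Agent.Q269.GR

theorem a_FLD : S_FLD := Pool.Agent.Q26.GR.t_FLD
theorem a_RTP : S_RTP := Pool.Agent.Q26.GR.t_RTP
theorem a_SGD : S_SGD := Pool.Agent.Q26.GR.t_SGD a_FLD
theorem a_XIR : S_XIR := Pool.Agent.Q26.GR.t_XIR
theorem a_ORD : S_ORD := Pool.Agent.Q26.GR.t_ORD
theorem a_UNR : S_UNR := Pool.Agent.Q26.GR.t_UNR
theorem a_DUA : S_DUA := Pool.Agent.Q111.GR.t_DUA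
theorem a_CHN : S_CHN := Pool.Agent.Q190.GR.t_CHN Pool.Agent.Q190.GR.t_CH1
theorem a_SYP : S_SYP := Pool.Agent.Q16.GR.t_SYP a_SGD a_RTP
theorem a_IRC : S_IRC := Pool.Agent.Q210.GR.t_IRC
theorem a_OPB : S_OPB := Pool.Agent.Q24.GR.t_OPB a_FLD a_SGD a_RTP
theorem a_INJ : S_INJ := Pool.Agent.Q16.GR.t_INJ a_FLD a_SGD a_RTP
theorem a_PRD : S_PRD := Pool.Agent.Q162.GR.t_PRD
theorem a_TRF : S_TRF := Pool.Agent.Q162.GR.t_TRF a_OPB a_DUA a_CHN a_IRC a_PRD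
theorem a_ERA : S_ERA := Pool.Agent.Q162.GR.t_ERA a_IRC
theorem a_ERB : S_ERB := Pool.Agent.Q162.GR.t_ERB a_IRC
theorem a_DEC : S_DEC := Pool.Agent.Q58.GR.DEC.t_DEC a_PRD
theorem a_TNP : S_TNP := Pool.Agent.Q162.GR.t_TNP
theorem a_AVP : S_AVP := Pool.Agent.Q162.GR.t_AVP a_IRC a_PRD
theorem a_HTB : S_HTB := Pool.Agent.Q58.GR.t_HTB a_IRC a_PRD
theorem a_TYA : S_TYA := Pool.Agent.Q58.GR.TYA.t_TYA a_TNP a_AVP a_HTB a_IRC
theorem a_TYB : S_TYB := Pool.Agent.Q162.GR.t_TYB a_TNP a_AVP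
theorem a_SMD : S_SMD := Pool.Agent.Q149.GR.t_SMD a_ORD
theorem a_PAR : S_PAR := Pool.Agent.Q102.GR.PAR.t_PAR
theorem a_PAS : S_PAS := Pool.Agent.Q16.GR.t_PAS a_PAR
theorem a_FCT : S_FCT := Pool.Agent.Q16.GR.t_FCT a_RTP a_FLD
theorem a_FCD : S_FCD := Pool.Agent.Q16.GR.t_FCD a_FCT a_RTP
theorem a_SYL : S_SYL := Pool.Agent.Q16.GR.t_SYL a_FLD a_RTP a_SGD a_FCT
theorem a_SYR : S_SYR := Pool.Agent.Q16.GR.t_SYR a_SYL a_FCT a_SGD a_RTP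

end Pool.Agent.Q269.GR.Asm
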