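import Pool.Agent.Y164.PS.Sym
import Pool.Agent.Q269.GR.Lin

/-!
# Project GR (helper269): definitions

`k` is a finite field with `q` elements, `q` odd, `-1` a square. `Om k` is an algebraic closure,
`K_d = {x | inK k d x}` its subfield with `q ^ d` elements (`d ≥ 1`).
-/

set_option autoImplicit false
set_option linter.all false

open scoped Classical
open Finset Polynomial

namespace Pool.Agent.Q269.GR

open Pool.Agent.Y164.PS (L sg)
open Pool.Agent.H341R2.Sharp (Mon)

section symbols

variable (k : Type) [Field k] [Fintype k]

abbrev Om : Type := AlgebraicClosure k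

/-- the element `x` lies in the field `K_d` with `q ^ d` elements -/
def inK (d : ℕ) (x : Om k) : Prop := x ^ (Fintype.card k ^ d) = x

/-- the symbol of an element `x` of `K_d`: `0` if `x` is a square in `K_d`, `1` if not -/
noncomputable def sgd (d : ℕ) (x : Om k) : F2 := if ∃ y : Om k, inK k d y ∧ x = y ^ 2 then 0 else 1

variable {k}

/-- a root of the polynomial `P` -/
noncomputable def rt (P : k[X]) : Om k := if h : ∃ θ : Om k, aeval θ P = 0 then h.choose else 0

/-- The symbols of the conjugate factors of `P` over `K_g` at the root of `P'`: the quadratic symbol in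
`K_(deg P')` of the product of the `θ' - θ^(q^l)`, `l < deg P`, `l ≡ c` modulo `g` (`θ`, `θ'` the roots
of `P`, `P'`). Used for `g ∣ deg P`, `g ∣ deg P'`, `c < g`, `P ≠ P'`. -/
noncomputable def sy (g : ℕ) (P P' : k[X]) (c : ℕ) : F2 :=
  sgd k P'.natDegree
    (∏ l ∈ (range P.natDegree).filter (fun l => l % g = c), (rt P' - rt P ^ (Fintype.card k ^ l)))

/-- The own symbols of `P`: the same with `P' = P` (for `0 < c < g`). -/
noncomputable def syo (g : ℕ) (P : k[X]) (c : ℕ) : F2 := sy g P P c

/-- the monic irreducible polynomials of degree `d` -/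
noncomputable def Irn (k : Type) [Field k] [Fintype k] (d : ℕ) : Finset k[X] :=
  (Mon k d).filter Irreducible

/-- the monic squarefree polynomials of degree `n` prime to `Δ` -/
noncomputable def Dn (Δ : k[X]) (n : ℕ) : Finset k[X] :=
  (Mon k n).filter fun D => Squarefree D ∧ IsCoprime D Δ

/-- the monic prime divisors -/
noncomputable def pr (D : k[X]) : Finset k[X] :=
  (UniqueFactorizationMonoid.normalizedFactors D).toFinset

end symbols

section systems

variable {k : Type} [Field k] [Fintype k]
variable {F : Type} [Field F] [Algebra F2 F]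

/-- the coefficient of `w(P)` in the equation at `P'` -/
noncomputable def hv (r : ℕ) (ξ : F) (P P' : k[X]) : F := ∑ c ∈ range r, cf (sy r P P' c) * ξ ^ c

/-- the part of the diagonal coefficient coming from the conjugate factors of `P` itself -/
noncomputable def own (r : ℕ) (ξ : F) (P : k[X]) : F := ∑ c ∈ range r, cf (sy r P P c) * (1 + ξ ^ c)

/-- The system attached to a family of primes: the unknowns are indexed by the primes of degree
divisible by `r`. -/
noncomputable def KF (r : ℕ) (ξ : F) (a b : k[X]) {ι : Type} [Fintype ι] (P : ι → k[X]) :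
    Submodule F ({i : ι // r ∣ (P i).natDegree} → F × F) :=
  Kn (fun i j => hv r ξ (P j.1) (P i.1))
    (fun i => own r ξ (P i.1) + cf (L a (P i.1) + ∑ j, if j = i.1 then 0 else L (P j) (P i.1)))
    (fun i => L (a * (a - b)) (P i.1)) (fun i => L (a * b) (P i.1))

/-- the system attached to a polynomial -/
noncomputable def KD (r : ℕ) (ξ : F) (a b D : k[X]) :
    Submodule F ({i : {P : k[X] // P ∈ pr D} // r ∣ (i.1).natDegree} → F × F) :=
  KF r ξ a b (fun P : {P : k[X] // P ∈ pr D} => P.1)

end systems

/-- the field with `2 ^ f` elements, `f` the order of `2` modulo `r` -/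
abbrev Fr (r : ℕ) : Type := GaloisField 2 (orderOf (2 : ZMod r))

noncomputable instance (r : ℕ) : Fintype (Fr r) := Fintype.ofFinite _

/-- an element of order `r` of `Fr r` -/
noncomputable def xi (r : ℕ) : Fr r := if h : ∃ x : Fr r, orderOf x = r then h.choose else 0

section good

variable {k : Type} [Field k] [Fintype k]

/-- the order `r` does not occur in the twist `D` -/
def Good (r : ℕ) (a b D : k[X]) : Prop := KD r (xi r) a b D = ⊥

/-- `D` is the product of the different monic irreducible polynomials `P i`, prime to `Δ` -/
structure Pfam (Δ : k[X]) {ι : Type} (P : ι → k[X]) : Prop where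
  mon : ∀ i, (P i).Monic
  irr : ∀ i, Irreducible (P i)
  inj : Function.Injective P
  cop : ∀ i, ¬ P i ∣ Δ

/-- the property `f` of the twists depends only on the degrees of the primes of `D`, on their symbols
and on the symbols of the bad primes at them -/
def Adm (a b : k[X]) (f : k[X] → Prop) : Prop :=
  ∀ (m : ℕ) (P P' : Fin m → k[X]), Pfam (a * b * (a - b)) P → Pfam (a * b * (a - b)) P' →
    (∀ i, (P i).natDegree = (P' i).natDegree) →
    (∀ i j, i ≠ j → L (P i) (P j) = L (P' i) (P' j)) →
    (∀ Q : k[X], Q.Monic → Irreducible Q → Q ∣ a * b * (a - b) → ∀ i, L Q (P i) = L Q (P' i)) →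
    (f (∏ i, P i) ↔ f (∏ i, P' i))

end good

end Pool.Agent.Q269.GR
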