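import Pool.Agent.Q269.GR.Lin
import Pool.Agent.Y164.PS.Sym

/-!
# Project GR: lemma jobs in linear algebra

Notation: `F` a finite field with `Q²` elements of characteristic two, `x̄ = x^Q` (an automorphism of order
two of `F`; `F₀ = {x | x̄ = x}` has `Q` elements), `tr : F → F2` the trace, `sg : F2 → ℝ`, `sg 0 = 1`,
`sg 1 = -1`. `V F = (F × F) × (F × F)`, elements `z = (w, v)`, `w = (x, y)`, `v = (v₁, v₂)`.
-/

set_option autoImplicit false
set_option linter.all false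

open scoped Classical
open Finset

namespace Pool.Agent.Q269.GR

open Pool.Agent.Y164.PS (sg)

/-! ### the unitary case -/

section unitary

variable {F : Type} [Field F]

abbrev V (F : Type) : Type := (F × F) × (F × F)

/-- the Hermitian form `⟨z, z'⟩ = v̄ · w' + v' · w̄`, additive in both variables, `F`-linear in `z'`,
conjugate linear in `z`, `⟨z', z⟩` is the conjugate of `⟨z, z'⟩`; nondegenerate -/
noncomputable def hf (Q : ℕ) (z z' : V F) : F :=
  z.2.1 ^ Q * z'.1.1 + z.2.2 ^ Q * z'.1.2 + z'.2.1 * z.1.1 ^ Q + z'.2.2 * z.1.2 ^ Q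

/-- the Hermitian forms attached to the types -/
noncomputable def ga (Q : ℕ) (z : V F) : F := z.2.2 ^ Q * z.1.1 + z.2.2 * z.1.1 ^ Q
noncomputable def gc (Q : ℕ) (z : V F) : F := z.2.1 ^ Q * z.1.2 + z.2.1 * z.1.2 ^ Q

variable [Algebra F2 F]

/-- the local weight -/
noncomputable def qf (Q : ℕ) (d : F) (a c : F2) (z : V F) : F :=
  z.2.1 ^ Q * (d * z.1.1 + cf c * z.1.2) + z.2.2 ^ Q * (d * z.1.2 + cf a * z.1.1)

/-- the sign of the trace -/
noncomputable def ts (x : F) : ℝ := sg (Algebra.trace F2 F x)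

/-- the Hermitian matrix with fixed entries outside `Sᶜ × Sᶜ` and the entries `s i j`, `i < j`, in it -/
noncomputable def HU {J : Type} [LinearOrder J] (S : Finset J) (B : J → J → F) (Q : ℕ) (s : J → J → F)
    (i j : J) : F := if i ∈ S ∨ j ∈ S then B i j else if i < j then s i j else s j i ^ Q

/-- the matrix with fixed entries outside `Sᶜ × Sᶜ` and arbitrary entries in it -/
noncomputable def HG {J : Type} (S : Finset J) (B : J → J → F) (s : J → J → F) (i j : J) : F :=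
  if i ∈ S ∨ j ∈ S then B i j else s i j

end unitary

/-- **JOB GR-UORT.** The mean number of solutions as a character sum.
Proof. For `w : J → F × F` and one index `i`: `∑_(v : F × F) ts (v̄ · eqn_i(w)) = |F|²` if `eqn_i(w) = 0` and
`0` if not (`v ↦ v̄` is a bijection, the trace form is nondegenerate: `AddChar`, or
`Algebra.traceForm_nondegenerate`). Hence `|F|^(2n) #Kn = ∑_w ∑_v ∏_i ts (v̄_i · eqn_i(w))`, that is a sum over
`z = (w, v) : J → V F`. Here `∑_i v̄_i · eqn_i = ∑_i qf (z_i) + ∑_(i<j) (M_ij v̄_i·w_j + M_ji v̄_j·w_i)`, and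
`M_ji = M_ij^Q`, `tr (x^Q) = tr x` (`Q` is a power of `2` since `Q² = |F|`), so the pair `i < j`
contributes `tr (M_ij (v̄_i·w_j + v_j·w̄_i)) = tr (M_ij ⟨z_i, z_j⟩)`. For `i, j ∉ S` the entry `M_ij = s i j`
runs through `F`: the sum over `s i j` is `|F|` if `⟨z_i, z_j⟩ = 0` and `0` if not; the other entries of `s`
do not occur. -/
def S_UORT : Prop := ∀ (F : Type) [Field F] [Fintype F] [Algebra F2 F] (Q : ℕ),
  Fintype.card F = Q ^ 2 → ∀ (J : Type) [Fintype J] [LinearOrder J] (S : Finset J) (B : J → J → F)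
  (dd : J → F) (a c : J → F2), (∀ i j, B j i = B i j ^ Q) →
  (Fintype.card F : ℝ) ^ (2 * Fintype.card J) *
      ∑ s : J → J → F, (Nat.card (Kn (HU S B Q s) dd a c) : ℝ) =
    (Fintype.card (J → J → F) : ℝ) *
      ∑ z ∈ (univ : Finset (J → V F)).filter
        (fun z => ∀ i j, i < j → i ∉ S → j ∉ S → hf Q (z i) (z j) = 0),
        ts (∑ i, qf Q (dd i) (a i) (c i) (z i) +
          ∑ i, ∑ j, if i < j ∧ (i ∈ S ∨ j ∈ S) then B i j * hf Q (z i) (z j) else 0)

/-- **JOB GR-UGAU.** Gauss sums on a maximal isotropic subspace.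
Proof. `tr = tr_(F₀/F2) ∘ t`, `t x = x + x̄` (or use only: `tr x̄ = tr x`). Put `u = v̄₁ x + v̄₂ y`; for
`z ∈ U`: `0 = ⟨z, z⟩ = u + ū`, so `ū = u` and with `d̄ = d`: `d u ∈ F₀` and `tr (e) = 0` for `e ∈ F₀`: indeed
`F₀ = {y + ȳ}` (kernel = image of `x ↦ x + x̄` by counting), and `tr (y + ȳ) = 0`. So
`tr (qf z) = tr (c v̄₁ y + a v̄₂ x)`.
(1) suppose `g z = a ga z + c gc z = 0` for all `z ∈ U`. `e = c v̄₁ y + a v̄₂ x` has `e + ē = g z = 0`, so `e ∈ F₀`,
`tr e = 0`.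
(2) suppose `g z₁ ≠ 0` for some `z₁ ∈ U`. The function `f z = ts (qf z + ⟨z₀, z⟩)` on `U`; the square of the sum:
`(∑_(z∈U) f z)² = ∑_(h∈U) ∑_z f (z + h) f z` and `f (z + h) f z = f h · ts (β(z, h))`, where
`β(z, h) = e(z + h) + e(z) + e(h)` is biadditive, `tr β(z, h) = tr (c (v̄₁(z) y(h) + v̄₁(h) y(z)) + a (...)) =
tr (G(z, h))` with `G(z, h) = c (v̄₁(z) y(h) + v₁(h) ȳ(z)) + a (v̄₂(z) x(h) + v₂(h) x̄(z))` (use `tr x̄ = tr x`),
which is `F`-linear in `h` and conjugate linear in `z`, with `G(z, z) = g(z)`. So the inner sum is `|U|` if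
`G(z, h) = 0` for all `z ∈ U` (replace `z` by `λ z` to go from the trace to the value) and `0` if not. The set `R` of
these `h` is an `F`-subspace of `U`, not `U` (as `G(z₁, z₁) ≠ 0`), so `|R| ≤ |F|` (`|U| = |F|²`). So
`|∑ f|² ≤ |U| |R| ≤ |F|³ = (|F|²/Q)²·(|F|³ Q²/|F|⁴)`, and `Q² = |F|`, so `|∑ f| ≤ |F|²/Q`. -/
def S_UGAU : Prop := ∀ (F : Type) [Field F] [Fintype F] [Algebra F2 F] (Q : ℕ),
  Fintype.card F = Q ^ 2 → ∀ (U : Submodule F (V F)), Nat.card U = Fintype.card F ^ 2 →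
  (∀ z ∈ U, ∀ z' ∈ U, hf Q z z' = 0) → ∀ (d : F) (a c : F2), d ^ Q = d →
  ((∀ z ∈ U, cf a * ga Q z + cf c * gc Q z = 0) → ∀ z ∈ U, ts (qf Q d a c z) = 1) ∧
  ((∃ z ∈ U, cf a * ga Q z + cf c * gc Q z ≠ 0) → ∀ z₀ : V F,
    |∑ z ∈ (univ : Finset (V F)).filter (· ∈ U), ts (qf Q d a c z + hf Q z₀ z)| ≤
      (Fintype.card F : ℝ) ^ 2 / Q)

/-- **JOB GR-UISO.** The subspaces which are isotropic for the three forms.
Proof. `gc z = 0` on `U` gives by polarisation `v̄₁ y' + v₁' ȳ = 0` for all `z, z' ∈ U` (`gc (z + λ z')` for all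
`λ ∈ F`: `λ A + λ̄ Ā = 0` for all `λ` gives `A = 0`). So the image `I₁` of `U` under `z ↦ (y, v₁) ∈ F²` is
isotropic for the nondegenerate form `v̄₁ y' + v₁' ȳ` on `F²`, so `dim I₁ ≤ 1`; in the same way for the image
`I₂` under `z ↦ (x, v₂)`. `U ⊆ I₁ ⊕ I₂` and `dim U = 2`, so `U = I₁ ⊕ I₂`, both of dimension one:
`I₁ = F (α, β)`, `I₂ = F (γ, δ)`, `U = {w = (γ s', α s), v = (β s, δ s')}`. `⟨z, z'⟩ = 0` on `U`: take
`z = (s, 0)`, `z' = (0, s')`: `β̄ γ + δ ᾱ = 0` (up to the factor `s̄ s'`). So `(γ : δ) = (ᾱ : β̄)` is determined by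
`(α : β)`. And `(α, β)` is isotropic: `β̄ α + β ᾱ = 0`, that is `α = 0` or `β/α ∈ F₀`: `Q + 1` lines. -/
def S_UISO : Prop := ∀ (F : Type) [Field F] [Fintype F] [Algebra F2 F] (Q : ℕ),
  Fintype.card F = Q ^ 2 →
  {U : Submodule F (V F) | Nat.card U = Fintype.card F ^ 2 ∧ (∀ z ∈ U, ∀ z' ∈ U, hf Q z z' = 0) ∧
    ∀ z ∈ U, ga Q z = 0 ∧ gc Q z = 0}.ncard ≤ Q + 1

/-- **JOB GR-URST.** The families of pairwise orthogonal vectors.
Proof. `A = {i | ⟨z_i, z_i⟩ ≠ 0}`: the `z_i`, `i ∈ A`, are linearly independent (pairwise orthogonal), so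
`|A| ≤ 4 = dim V`. `W` = the span of the `z_i`, `i ∉ A`, is totally isotropic, so `dim W ≤ 2` (`W ⊆ W^⊥`,
`dim W^⊥ = 4 - dim W`, the form is nondegenerate). If `dim W = 2` then `W^⊥ = W`; an `i ∈ A` would have
`z_i ∈ W^⊥ = W`, `⟨z_i, z_i⟩ = 0`, contradiction; so `A = ∅` and `W` is the span of all `z_i`: excluded. So
`dim W ≤ 1`, `W ⊆ F v` for some `v : V F`. The number of families is at most: the number of `A` (at most
`(n+1)^4`), times the values on `A` (at most `|V|^4 = |F|^16`), times the number of `v` (`|F|^4`), times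
`|F|^n` for the other values. (A cheap way: inject the families into
`(Fin 4 → Option J) × (Fin 4 → V) × V × (J → F)`.) -/
def S_URST : Prop := ∀ (F : Type) [Field F] [Fintype F] [Algebra F2 F] (Q : ℕ),
  Fintype.card F = Q ^ 2 → ∀ (J : Type) [Fintype J],
  ((univ : Finset (J → V F)).filter fun z => (∀ i j, i ≠ j → hf Q (z i) (z j) = 0) ∧
    ¬ (Nat.card (Submodule.span F (Set.range z)) = Fintype.card F ^ 2 ∧
      ∀ z₁ ∈ Submodule.span F (Set.range z), ∀ z₂ ∈ Submodule.span F (Set.range z), hf Q z₁ z₂ = 0)).card ≤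
    (Fintype.card J + 1) ^ 4 * Fintype.card F ^ (20 + Fintype.card J)

/-- **JOB GR-LAU.** The mean number of elements of the kernel in the unitary case. The diagonal, the
types and the entries with an index in `S` are fixed; only the entries in `Sᶜ × Sᶜ` are random.
Proof (uses UORT, UGAU, UISO, URST; prove `t_LAU (h1 : S_UORT) (h2 : S_UGAU) (h3 : S_UISO) (h4 : S_URST) : S_LAU`).
`n = |J|`, `σ = |S|`, `λ = |Sᶜ| ≥ 4σ + 64` (by `Gen`). By UORT the mean is
`|F|^(-2n) ∑_z ts (...)` over the `z : J → V` with `⟨z_i, z_j⟩ = 0` for `i ≠ j`, `i, j ∉ S`. Split `z = (z_S, z_Λ)`.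
(I) `z_Λ` for which the span `W` of the `z_i`, `i ∉ S`, is not (totally isotropic with `|W| = |F|²`): by URST at
most `(λ+1)^4 |F|^(20+λ)`, times `|F|^(4σ)` for `z_S`: contribution at most `(λ+1)^4 |F|^(20+λ+4σ-2(λ+σ))`,
tiny: the exponent is `20 + 2σ - λ ≤ -12 - λ/2`.
(II) the others: `∑_U ∑_(z : W = U)`, `U` totally isotropic with `|F|²` elements. For each `U` the sum over
`W = U` is the sum over all `z_Λ ∈ U^Λ` minus the sum over the `z_Λ ∈ U^Λ` with `W ≠ U`; the latter lie in one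
of the at most `|F| + 1 ≤ |F|²` lines of `U`: at most `|F|^(2+λ) |F|^(4σ)`, and there are at most `|V|² = |F|^8`
subspaces `U`: contribution at most `|F|^(10 + λ + 4σ - 2λ - 2σ)`, tiny.
(III) `T_U = ∑_(z_S) ∑_(z_Λ ∈ U^Λ)`. For fixed `z_S` this is `ts(...)` of the part of `S`, times
`∏_(j∉S) ∑_(z∈U) ts (qf z + ⟨Z_j, z⟩)` with `Z_j = ∑_(κ∈S) B̄_κj z_κ` (`tr (B_κj ⟨z_κ, z⟩) = tr ⟨B̄_κj z_κ, z⟩`; for
`j < κ` use `tr (B_jκ ⟨z_j, z_κ⟩) = tr (B_κj ⟨z_κ, z_j⟩)`, the conjugate).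
(III.a) if `ga`, `gc` do not both vanish on `U`: the set of `(a, c) ∈ F2²` with `a ga + c gc = 0` on `U` is a
proper subspace, contained in `{0, (p, q)}` for some `(p, q) ≠ 0`, so by `Gen` at least `m = 4σ + 64` of the factors
have absolute value at most `|F|²/Q` (UGAU (2)) and the others at most `|F|²`. So
`|T_U| ≤ |F|^(4σ) |F|^(2λ) Q^(-m)`, and the sum over the at most `|F|^8` subspaces divided by `|F|^(2n)` is at most
`|F|^(8+2σ) Q^(-4σ-64) = Q^(16-64)`, tiny.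
(III.b) if `ga = gc = 0` on `U` (at most `Q + 1` subspaces by UISO): `ts (qf z) = 1` for `z ∈ U` (UGAU (1)), so the
`j`-th factor is `∑_(z∈U) ts ⟨Z_j, z⟩ = |U|` if `Z_j ∈ U^⊥ = U` and `0` if not. If it is not zero for all `j`, then
`∑_κ B̄_κj z_κ ∈ U` for all `j ∉ S`; by `inj` (apply conjugation and a linear form on `V/U`) all `z_κ ∈ U`; then the
part of `S` is `ts (∑_κ qf (z_κ) + ∑ B_κκ' ⟨z_κ, z_κ'⟩) = 1`. So `T_U = |F|^(2λ) |F|^(2σ)` and the contribution of
`U` is exactly `1`.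
Total at most `Q + 1 + tiny ≤ Q + 9/8`. -/
def S_LAU : Prop := ∀ (F : Type) [Field F] [Fintype F] [Algebra F2 F] (Q : ℕ),
  Fintype.card F = Q ^ 2 → ∀ (J : Type) [Fintype J] [LinearOrder J] (S : Finset J) (B : J → J → F)
  (dd : J → F) (a c : J → F2), (∀ i j, B j i = B i j ^ Q) → (∀ i, dd i ^ Q = dd i) →
  (∀ v : J → F, (∀ i, i ∉ S → v i = 0) → (∀ j, j ∉ S → ∑ i, v i * B i j = 0) → v = 0) →
  Gen Sᶜ a c (4 * S.card + 64) →
  ∑ s : J → J → F, (Nat.card (Kn (HU S B Q s) dd a c) : ℝ) ≤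
    (Q + 9 / 8) * (Fintype.card (J → J → F) : ℝ)

/-! ### the other case -/

/-- **JOB GR-LAG.** The mean number of elements of the kernel for a matrix without symmetry (all the
entries in `Sᶜ × Sᶜ` are random and independent). `Λ = Sᶜ`, `σ = |S|`, `λ = |Λ| ≥ m = 4σ + 64` (by `Gen`).
Proof. `∑_s #Kn / #s = ∑_w p(w)`, `p(w)` = the probability (over `s`) that `w = (w_j)`, `w_j = (x_j, y_j)`, solves
the system. The rows are independent; the rows `κ ∈ S` are fixed. For `i ∈ Λ` the `i`-th equation says that the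
random vector `∑_(j∈Λ, j≠i) s_ij w_j` has a given value, so it has probability `0` or `|F|^(-ρ_i)`,
`ρ_i = dim span {w_j : j ∈ Λ, j ≠ i} ≤ 2`.
(0) `w_j = 0` for all `j ∈ Λ`: the rows `i ∈ Λ` give `∑_κ B_iκ w_κ = 0`, so `w = 0` by `inj2`. Contribution `1`.
(2) all `ρ_i = 2`: the `w` must satisfy the rows `κ ∈ S`: for given `(w_κ)` the vectors `∑_(j∈Λ) B_κj w_j`,
`κ ∈ S`, are prescribed, and `w_Λ ↦ (∑_j B_κj w_j)_κ` is surjective by `inj1`, so there are
`|F|^(2σ + 2λ - 2σ) = |F|^(2λ)` such `w` at most, each with `p(w) ≤ |F|^(-2λ)`. Contribution at most `1`.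
(1) the span of the `w_j`, `j ∈ Λ`, is a line `F (p, q)`: `w_j = z_j (p, q)`. If the row `i ∈ Λ` has a solution,
then (multiply the first coordinate by `q`, the second by `p`, add): `∑_κ B_iκ (q x_κ + p y_κ) = (a_i p² + c_i q²) z_i`.
By `Gen` at least `m` of the `i ∈ Λ` have `a_i p² + c_i q² ≠ 0` (the `(a, c) ∈ F2²` with `a p² + c q² = 0` form a
proper subspace): for these `z_i` is determined by `w_S`. So there are at most `(|F| + 1) |F|^(2σ + λ - m)` such
`w`. If at least two of the `z_j` are not `0` then all `ρ_i = 1` and `p(w) ≤ |F|^(-λ)`: contribution at most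
`(|F| + 1) |F|^(2σ - m)`. If exactly one `z_j ≠ 0`: at most `λ (|F|+1) |F| |F|^(2σ)` of these `w`, and
`p(w) ≤ |F|^(-(λ-1))`.
(3) the span is `F²` but `ρ_i ≤ 1` for some `i = i₀`: then `w_j`, `j ≠ i₀`, lie on a line and are not all `0`. At
most `λ |F|² (|F| + 1) |F|^(λ-1) |F|^(2σ)` such `w`. If at least two of the `w_j`, `j ∈ Λ`, `j ≠ i₀`, are not `0`,
then `ρ_i = 2` for all `i ≠ i₀` and `p(w) ≤ |F|^(-2(λ-1))`. If exactly one: at most `λ² |F|^4 |F|^(2σ)` such `w`, and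
`p(w) ≤ |F|^(-2(λ-2))`.
With `|F| ≥ 4`, `λ ≥ 4σ + 64` all the error terms together are at most `1/8`. -/
def S_LAG : Prop := ∀ (F : Type) [Field F] [Fintype F] [Algebra F2 F], 4 ≤ Fintype.card F →
  ∀ (J : Type) [Fintype J] (S : Finset J) (B : J → J → F) (dd : J → F) (a c : J → F2),
  (∀ v : J → F, (∀ i, i ∉ S → v i = 0) → (∀ j, j ∉ S → ∑ i, v i * B i j = 0) → v = 0) →
  (∀ v : J → F, (∀ i, i ∉ S → v i = 0) → (∀ j, j ∉ S → ∑ i, v i * B j i = 0) → v = 0) →
  Gen Sᶜ a c (4 * S.card + 64) →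
  ∑ s : J → J → F, (Nat.card (Kn (HG S B s) dd a c) : ℝ) ≤ (17 / 8) * (Fintype.card (J → J → F) : ℝ)

/-! ### evaluations -/

/-- **JOB GR-SUR.** All the evaluations of a vector of bits are independent.
Proof. Identify `s : Fin g → F2` with the polynomial `∑ s_c X^c` modulo `X^g - 1`, which is separable over `F2`
(`g` odd). For `r ∈ R` let `π_r`, `π'_r` be the minimal polynomials of `ξ_r`, `ξ_r⁻¹` over `F2`: irreducible
divisors of `X^g - 1` of degree `f_r = orderOf (2 : ZMod r)` (the conjugates of `ξ_r` are the `ξ_r^(2^i)`), as is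
`X - 1`. Their roots have order `r`, so they are different for different `r` and from `X - 1` (`r > 1`). If
`r` is unitary (`Un r`): `r ∣ 2^m + 1`, then `2^m = -1` modulo `r`, `f_r` is even and `r ∣ 2^(f_r/2) + 1` (`-1` has
order two in the cyclic group generated by `2`, whose only element of order two is `2^(f_r/2)`; `r > 2`), so
`ξ_r⁻¹ = ξ_r^(Q_r)`, `Q_r = 2^(f_r/2)`, and `ev ξ_r⁻¹ s = (ev ξ_r s)^(Q_r)`: the second condition follows from the
first one. If `r` is not unitary then `ξ_r⁻¹` is not conjugate to `ξ_r` and `π'_r ≠ π_r`. By the Chinese remainder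
theorem in `F2[X]` for the different irreducible polynomials `X - 1`, `π_r`, and `π'_r` for the nonunitary `r`, and
`F2[X]/(π_r) ≅ F r` (`|F r| = 2^(f_r)`), there is a polynomial with the prescribed values; reduce it modulo
`X^g - 1`. -/
def S_SUR : Prop := ∀ (g : ℕ), Odd g → ∀ (R : Finset ℕ), (∀ r ∈ R, r ∣ g) → ∀ (F : ℕ → Type)
  [∀ r, Field (F r)] [∀ r, Fintype (F r)] [∀ r, Algebra F2 (F r)] (ξ : ∀ r, F r),
  (∀ r ∈ R, IsRt r (ξ r)) → ∀ (b : F2) (y : ∀ r, F r × F r),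
  (∀ r ∈ R, Un r → (y r).2 = (y r).1 ^ 2 ^ (orderOf (2 : ZMod r) / 2)) →
  ∃ s : Fin g → F2, ∑ c, s c = b ∧ ∀ r ∈ R, ev (ξ r) s = (y r).1 ∧ ev (ξ r)⁻¹ s = (y r).2

/-- **JOB GR-UNR.** Facts on the order of `2` and on conjugation.
Proof. See the docstring of `S_SUR`. `ev ξ⁻¹ s = (ev ξ s)^Q` and `ev ξ s = (ev ξ⁻¹ s)^Q` since `x ↦ x^Q` is a ring
homomorphism fixing `F2` and `ξ^Q = ξ⁻¹`. -/
def S_UNR : Prop := ∀ (r : ℕ) (F : Type) [Field F] [Fintype F] [Algebra F2 F] (ξ : F), IsRt r ξ →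
  2 ≤ orderOf (2 : ZMod r) ∧ IsRt r ξ⁻¹ ∧ 4 ≤ Fintype.card F ∧ 0 ≤ 1 - dl r ∧ 0 ≤ dl r ∧ 1 ≤ Eb r ∧
  (Un r → Fintype.card F = (2 ^ (orderOf (2 : ZMod r) / 2)) ^ 2 ∧
    ξ ^ 2 ^ (orderOf (2 : ZMod r) / 2) = ξ⁻¹ ∧ ξ⁻¹ ^ 2 ^ (orderOf (2 : ZMod r) / 2) = ξ ∧
    ∀ (g : ℕ) (s : Fin g → F2), ev ξ⁻¹ s = ev ξ s ^ 2 ^ (orderOf (2 : ZMod r) / 2) ∧
      ev ξ s = ev ξ⁻¹ s ^ 2 ^ (orderOf (2 : ZMod r) / 2))

/-! ### the model of a cell -/

section model

variable {ι : Type} [LinearOrder ι]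

def gg (N : ℕ) (d : ι → ℕ) (i j : ι) : ℕ := Nat.gcd N (Nat.gcd (d i) (d j))

/-- the bits: for every pair a vector of length `gcd (N, d_i, d_j)` (only the pairs `i < j` matter) -/
abbrev Bt (N : ℕ) (d : ι → ℕ) : Type := ∀ i j : ι, Fin (gg N d i j) → F2

variable (N : ℕ) (d : ι → ℕ) (mv : Finset ι)

/-- the trivial symbols -/
noncomputable def AA (A0 : ι → ι → F2) (s : Bt N d) (i j : ι) : F2 :=
  if i ∈ mv ∧ j ∈ mv then (if j < i then ∑ c, s j i c else ∑ c, s i j c) else A0 i j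

variable {F : Type} [Field F] [Algebra F2 F]

/-- the matrix -/
noncomputable def MM (Fx : ι → ι → F) (ξ : F) (s : Bt N d) (i j : ι) : F :=
  if i ∈ mv ∧ j ∈ mv then (if j < i then ev ξ (s j i) else ev ξ⁻¹ (s i j)) else Fx i j

variable [Fintype ι]

/-- the kernel for the order `r` -/
noncomputable def KM (r : ℕ) (A0 : ι → ι → F2) (al : ι → F2) (Fx : ι → ι → F) (ow : ι → F)
    (a c : ι → F2) (ξ : F) (s : Bt N d) : Submodule F ({i : ι // r ∣ d i} → F × F) :=
  Kn (fun i j => MM N d mv Fx ξ s i.1 j.1)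
    (fun i => ow i.1 + cf (al i.1 + ∑ j, if j = i.1 then 0 else AA N d mv A0 s i.1 j))
    (fun i => a i.1) (fun i => c i.1)

/-- the data for the order `r` are good -/
structure Nice (r : ℕ) (Fx : ι → ι → F) (ow : ι → F) (a c : ι → F2) : Prop where
  inj1 : ∀ v : ι → F, (∀ i, ¬ (i ∉ mv ∧ r ∣ d i) → v i = 0) →
    (∀ j ∈ mv, r ∣ d j → ∑ i, v i * Fx i j = 0) → v = 0
  inj2 : ∀ v : ι → F, (∀ i, ¬ (i ∉ mv ∧ r ∣ d i) → v i = 0) →
    (∀ j ∈ mv, r ∣ d j → ∑ i, v i * Fx j i = 0) → v = 0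
  gen : Gen (mv.filter fun i => r ∣ d i) a c
    (4 * ((univ : Finset ι).filter fun i => i ∉ mv ∧ r ∣ d i).card + 64)

/-- the data for the order `r` are Hermitian in the unitary case -/
def Herm (r : ℕ) (Fx : ι → ι → F) (ow : ι → F) : Prop := Un r →
  (∀ i j, r ∣ d i → r ∣ d j → ¬ (i ∈ mv ∧ j ∈ mv) → Fx j i = Fx i j ^ 2 ^ (orderOf (2 : ZMod r) / 2)) ∧
  ∀ i, r ∣ d i → ow i ^ 2 ^ (orderOf (2 : ZMod r) / 2) = ow i

end model

/-- **JOB GR-LAR1.** The mean number of elements of the kernel of the model, given the trivial symbols.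
(Prove `t_LAR1 (h1 : S_LAU) (h2 : S_LAG) (h3 : S_SUR) (h4 : S_UNR) : S_LAR1`.)
Proof. The kernel `KM r` depends only on the trivial symbols `A_ij = ∑_c s_ij(c)` (`i < j` in `mv`) and on the pairs
`(ev ξ (s i j), ev ξ⁻¹ (s i j))` for `i < j` in `mv`, `r ∣ d i`, `r ∣ d j` (then `r ∣ gg N d i j` as `r ∣ N`). By SUR
(with `R = {r}`, for every such pair, `g = gg N d i j` is odd) the additive map
`s ↦ (A_ij)_(i<j), (ev ξ (s i j), ev ξ⁻¹ (s i j))_(i<j)` is surjective onto all pairs of values (with second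
component `= first^Q` in the unitary case), so all its fibres have the same number of elements: for given `(A_ij)`
the values `ev ξ (s i j) ∈ F` are uniform and independent (and so are the pairs `(ev ξ, ev ξ⁻¹) ∈ F × F` in the
nonunitary case). For fixed `(A_ij)` the diagonal of the system is fixed (and lies in `F₀` in the unitary case). Apply
LAU (unitary case: `J = {i // r ∣ d i}`, `S` = the indices not in `mv`, `B i j = Fx i j` if `i` or `j ∉ mv`, `M_ij`
for `i < j` in `mv` is `ev ξ⁻¹ (s i j)`, `M_ji = ev ξ (s i j) = M_ij^Q`), or LAG (`M_ij`, `M_ji` are independent). Put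
`B i j = Fx i j` for `¬ (i, j ∈ mv)` and `B = 0` otherwise, off the diagonal; the diagonal entries of `M` do not
occur in `Kn`. -/
def S_LAR1 : Prop := ∀ (ι : Type) [Fintype ι] [LinearOrder ι] (N : ℕ) (d : ι → ℕ) (mv : Finset ι)
  (r : ℕ), Odd N → r ∣ N → ∀ (F : Type) [Field F] [Fintype F] [Algebra F2 F] (ξ : F), IsRt r ξ →
  ∀ (A0 : ι → ι → F2) (al : ι → F2) (Fx : ι → ι → F) (ow : ι → F) (a c : ι → F2),
  Herm d mv r Fx ow → Nice d mv r Fx ow a c → ∀ f : (ι → ι → F2) → Prop,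
  ∑ s ∈ (univ : Finset (Bt N d)).filter (fun s => f (AA N d mv A0 s)),
      (Nat.card (KM N d mv r A0 al Fx ow a c ξ s) : ℝ) ≤
    Eb r * (((univ : Finset (Bt N d)).filter (fun s => f (AA N d mv A0 s))).card : ℝ)

/-- **JOB GR-LAR2.** The kernels for different orders `r` are independent given the trivial symbols.
(Prove `t_LAR2 (h1 : S_LAU) (h2 : S_LAG) (h3 : S_SUR) (h4 : S_UNR) : S_LAR2`; the proof of LAR1 is part of it, coordinate
with the author of LAR1, or prove first: for each fixed `A` the bound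
`#{values with KM r ≠ ⊥} ≤ dl r * #values`, from LAU / LAG: a nonzero kernel is a nonzero `F`-space and has at least
`|F| = 2^(f_r)` elements, so `(|F| - 1) #{KM ≠ ⊥} ≤ ∑ (#KM - 1) ≤ (Eb r - 1) #`.)
Proof. By SUR with the whole set `R` the additive map
`s ↦ (A_ij)_(i<j in mv), (ev ξ_r (s i j), ev ξ_r⁻¹ (s i j))_(i<j in mv, r ∈ R, r ∣ d i, r ∣ d j)` is surjective onto
the product of the value sets, so all its fibres have the same cardinality: for given `(A_ij)` the families for the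
different `r ∈ R` are independent and uniform. The event `KM r = ⊥` depends on the family for `r` and on `A` only, and
has probability at least `1 - dl r ≥ 0` given `A`. So the number of the `s` with `f (A s)` and all `KM r = ⊥` is at
least `∏ (1 - dl r)` times the number of the `s` with `f (A s)`. -/
def S_LAR2 : Prop := ∀ (ι : Type) [Fintype ι] [LinearOrder ι] (N : ℕ) (d : ι → ℕ) (mv : Finset ι)
  (R : Finset ℕ), Odd N → (∀ r ∈ R, r ∣ N) → ∀ (F : ℕ → Type) [∀ r, Field (F r)] [∀ r, Fintype (F r)]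
  [∀ r, Algebra F2 (F r)] (ξ : ∀ r, F r), (∀ r ∈ R, IsRt r (ξ r)) →
  ∀ (A0 : ι → ι → F2) (al : ι → F2) (Fx : ∀ r, ι → ι → F r) (ow : ∀ r, ι → F r) (a c : ι → F2),
  (∀ r ∈ R, Herm d mv r (Fx r) (ow r)) → (∀ r ∈ R, Nice d mv r (Fx r) (ow r) a c) →
  ∀ f : (ι → ι → F2) → Prop,
  (∏ r ∈ R, (1 - dl r)) * (((univ : Finset (Bt N d)).filter (fun s => f (AA N d mv A0 s))).card : ℝ) ≤
    (((univ : Finset (Bt N d)).filter (fun s => f (AA N d mv A0 s) ∧
      ∀ r ∈ R, KM N d mv r A0 al (Fx r) (ow r) a c (ξ r) s = ⊥)).card : ℝ)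

/-- **JOB GR-LB2.** The kernel for large `r`: no fixed indices, at least two moving ones, `N = r`, no
condition on the types. (Prove `t_LB2 (h3 : S_SUR) (h4 : S_UNR) : S_LB2`.)
Proof. `J = {i // r ∣ d i}` (all in `mv`), `m = |J| ≥ 2`. As in LAR1, given the trivial symbols (so given the diagonal
and the types) the off-diagonal entries are uniform: a Hermitian matrix over `F` (unitary case) or an arbitrary one.
The kernel is nonzero iff the `2m × 2m` determinant of `[[H, c], [a, H]]` (`H` with the diagonal `dd`) vanishes. Choose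
a fixed matrix `H*` with zero diagonal (Hermitian in the unitary case) and `det H* ≠ 0`: for even `m` a direct sum of
blocks `[[0, 1], [1, 0]]`; for odd `m` one block `[[0, 1, x], [1, 0, 1], [x̄, 1, 0]]` of determinant `x + x̄`
(with `x + x̄ ≠ 0`; without symmetry take the entries `x` and `0` instead of `x` and `x̄`, determinant `x = 1`) and blocks
of size two. For fixed `H` the polynomial `t ↦ det [[H + t H*, c], [a, H + t H*]]` over `F` has degree `2m` with leading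
coefficient `(det H*)² ≠ 0`, so at most `2m` zeros `t` in `F₀` (resp. in `F`). Averaging over `t ∈ F₀` (resp. `F`)
and `H` (`H + t H*` is uniform for every `t`): the proportion of the `H` with vanishing determinant is at most
`2m/Q` (resp. `2m/|F|`), and `Q = 2^(f/2)`. -/
def S_LB2 : Prop := ∀ (ι : Type) [Fintype ι] [LinearOrder ι] (d : ι → ℕ) (mv : Finset ι)
  (r : ℕ), (∀ i, i ∈ mv ↔ r ∣ d i) → 2 ≤ mv.card → ∀ (F : Type) [Field F] [Fintype F] [Algebra F2 F]
  (ξ : F), IsRt r ξ → ∀ (A0 : ι → ι → F2) (al : ι → F2) (Fx : ι → ι → F) (ow : ι → F) (a c : ι → F2),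
  Herm d mv r Fx ow →
  (((univ : Finset (Bt r d)).filter (fun s => KM r d mv r A0 al Fx ow a c ξ s ≠ ⊥)).card : ℝ) ≤
    (2 * mv.card / 2 ^ (orderOf (2 : ZMod r) / 2)) * (Fintype.card (Bt r d) : ℝ)

end Pool.Agent.Q269.GR
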